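import Pool.Agent.Lib.MP_17a322_nt.VN.C10

/-!
Counting for the joint vanishing conditions.
-/

namespace Pool.Agent.Lib.MP_17a322_nt.VDL

open Pool.Agent.Lib.MP_17a322_nt.VJ Pool.Agent.Lib.MP_17a322_nt.VN

/-- The number of `q` with sum less than `m`. -/
theorem CJ3_Q (m : ℕ) : ((Fintype.piFinset fun _ : Fin m => Finset.range m).filter
    (fun q : Fin m → ℕ => ∑ i, q i < m)).card ≤ 4 ^ m := by
  have h1 : (((Fintype.piFinset fun _ : Fin m => Finset.range m).filter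
      (fun q : Fin m → ℕ => ∑ i, q i < m)).card : ℝ) ≤ 4 ^ m := by
    rw [Finset.cast_card]
    have h2 : ∀ q ∈ (Fintype.piFinset fun _ : Fin m => Finset.range m).filter
        (fun q : Fin m → ℕ => ∑ i, q i < m), (1 : ℝ) ≤ 2 ^ m * ∏ i, (1 / (2 : ℝ)) ^ q i := by
      intro q hq
      have h3 := (Finset.mem_filter.1 hq).2
      rw [Finset.prod_pow_eq_pow_sum, one_div, inv_pow, ← div_eq_mul_inv, one_le_div (by positivity)]
      exact pow_le_pow_right₀ (by norm_num) h3.le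
    refine (Finset.sum_le_sum h2).trans ?_
    refine (Finset.sum_le_sum_of_subset_of_nonneg (Finset.filter_subset _ _)
      fun q _ _ => by positivity).trans ?_
    rw [← Finset.mul_sum, ← Finset.prod_univ_sum (fun _ : Fin m => Finset.range m)
      (fun (_ : Fin m) (j : ℕ) => (1 / (2 : ℝ)) ^ j), Finset.prod_const, Finset.card_univ,
      Fintype.card_fin]
    have h3 := pow_le_pow_left₀ (Finset.sum_nonneg fun j _ => by positivity)
      (sum_geometric_two_le m) m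
    refine (mul_le_mul_of_nonneg_left h3 (by positivity)).trans (le_of_eq ?_)
    rw [← mul_pow]
    norm_num
  exact_mod_cast h1

theorem CJ3_kappa (m J : ℕ) (j : Fin m → ℕ) (hj : ∀ i, j i ≤ J) (S : Finset (Fin m → ℕ))
    (hS : ∀ κ ∈ S, ∑ i, 4 ^ j i * κ i < m * 4 ^ J) :
    S.card ≤ 4 ^ m * ∏ i, 4 ^ (J - j i) := by
  classical
  have h1 : S.card ≤ (((Fintype.piFinset fun _ : Fin m => Finset.range m).filter
      (fun q : Fin m → ℕ => ∑ i, q i < m)) ×ˢ
      (Fintype.piFinset fun i : Fin m => Finset.range (4 ^ (J - j i)))).card := by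
    refine Finset.card_le_card_of_injOn
      (fun κ => (fun i => κ i / 4 ^ (J - j i), fun i => κ i % 4 ^ (J - j i))) ?_ ?_
    · intro κ hκ
      have h2 := hS κ hκ
      have h3 : ∑ i, κ i / 4 ^ (J - j i) < m := by
        have h4 : 4 ^ J * ∑ i, κ i / 4 ^ (J - j i) ≤ ∑ i, 4 ^ j i * κ i := by
          rw [Finset.mul_sum]
          refine Finset.sum_le_sum fun i _ => ?_
          have h5 : 4 ^ J = 4 ^ j i * 4 ^ (J - j i) := by
            rw [← pow_add, Nat.add_sub_cancel' (hj i)]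
          rw [h5, mul_assoc]
          exact Nat.mul_le_mul_left _ (Nat.mul_div_le _ _)
        have h5 : 4 ^ J * ∑ i, κ i / 4 ^ (J - j i) < 4 ^ J * m :=
          h4.trans_lt (by rw [mul_comm (4 ^ J) m]; exact h2)
        exact Nat.lt_of_mul_lt_mul_left h5
      refine Finset.mem_coe.2 (Finset.mem_product.2 ⟨Finset.mem_filter.2 ⟨?_, h3⟩, ?_⟩)
      · rw [Fintype.mem_piFinset]
        intro i
        rw [Finset.mem_range]
        exact (Finset.single_le_sum (f := fun i => κ i / 4 ^ (J - j i))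
          (fun _ _ => Nat.zero_le _) (Finset.mem_univ i)).trans_lt h3
      · rw [Fintype.mem_piFinset]
        intro i
        rw [Finset.mem_range]
        exact Nat.mod_lt _ (by positivity)
    · intro κ _ κ' _ h
      funext i
      have h2 := congrFun (congrArg Prod.fst h) i
      have h3 := congrFun (congrArg Prod.snd h) i
      have h4 : κ i / 4 ^ (J - j i) = κ' i / 4 ^ (J - j i) := h2
      have h5 : κ i % 4 ^ (J - j i) = κ' i % 4 ^ (J - j i) := h3
      rw [← Nat.div_add_mod (κ i) (4 ^ (J - j i)), h4, h5, Nat.div_add_mod]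
  refine h1.trans ?_
  rw [Finset.card_product, Fintype.card_piFinset]
  refine Nat.mul_le_mul (CJ3_Q m) (le_of_eq ?_)
  exact Finset.prod_congr rfl fun i _ => Finset.card_range _

theorem CJ3_BBJ (k m J : ℕ) (j : Fin m → ℕ) (hj : ∀ i, j i ≤ J) (E : Fin m → ℕ) :
    ((BB (fun i : Fin m => E i + 1) : Finset (Fin m → Fin (k + 1) → ℕ)).filter
      (fun β => ∑ i, 4 ^ j i * β i 0 < m * 4 ^ J)).card ≤
      4 ^ m * ∏ i, (4 ^ (J - j i) * (E i + 1) ^ k) := by
  classical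
  set S := (BB (fun i : Fin m => E i + 1) : Finset (Fin m → Fin (k + 1) → ℕ)).filter
      (fun β => ∑ i, 4 ^ j i * β i 0 < m * 4 ^ J) with hS
  have h1 := CJ3_kappa m J j hj (S.image fun β i => β i 0) (by
    intro κ hκ
    obtain ⟨β, hβ, rfl⟩ := Finset.mem_image.1 hκ
    exact (Finset.mem_filter.1 hβ).2)
  have h2 : S.card ≤ ((S.image fun β i => β i 0) ×ˢ
      (BB (fun i : Fin m => E i + 1) : Finset (Fin m → Fin k → ℕ))).card := by
    refine Finset.card_le_card_of_injOn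
      (fun β => (fun i => β i 0, fun i t => β i (Fin.succ t))) ?_ ?_
    · intro β hβ
      refine Finset.mem_coe.2 (Finset.mem_product.2 ⟨Finset.mem_image_of_mem _ hβ, ?_⟩)
      rw [mem_BB]
      intro i t
      exact (mem_BB _ _).1 (Finset.mem_filter.1 hβ).1 i (Fin.succ t)
    · intro β _ β' _ h
      funext i t
      have h3 := congrFun (congrArg Prod.fst h) i
      have h4 := congrFun (congrArg Prod.snd h) i
      refine Fin.cases h3 (fun t => ?_) t
      exact congrFun h4 t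
  rw [Finset.card_product, card_BB] at h2
  refine h2.trans ((Nat.mul_le_mul_right _ h1).trans (le_of_eq ?_))
  rw [Finset.prod_mul_distrib, mul_assoc]

private theorem CJ3_row (k e D N T : ℕ) (hT : 1 ≤ T)
    (hN : N = 2 * (4 ^ (k + 2) * (e + 1) * (2 * (k + 1) * D + 1) ^ k)) :
    2 * (2 ^ (k + 1) * (2 ^ (k + 1) * ((e + 1) * (4 * (T *
      (2 * (k + 1) * (N * T) * D + 1) ^ k))))) ≤ (N * T + 1) ^ (k + 1) := by
  have hN1 : 1 ≤ N := by
    rw [hN]
    exact Nat.succ_le_of_lt (by positivity)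
  have hb : 1 ≤ N * T := Nat.one_le_iff_ne_zero.2 (Nat.mul_ne_zero (by omega) (by omega))
  have h1 : 2 * (k + 1) * (N * T) * D + 1 ≤ (2 * (k + 1) * D + 1) * (N * T) := by
    have : (2 * (k + 1) * D + 1) * (N * T) = 2 * (k + 1) * (N * T) * D + N * T := by ring
    rw [this]
    exact Nat.add_le_add_left hb _
  have h2 := Nat.pow_le_pow_left h1 k
  have h3 : (4 : ℕ) ^ (k + 2) = 2 ^ (k + 1) * (2 ^ (k + 1) * 4) := by
    have : (4 : ℕ) = 2 ^ 2 := rfl
    rw [this, ← pow_mul, ← pow_add, ← pow_add]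
    congr 1
    ring
  calc 2 * (2 ^ (k + 1) * (2 ^ (k + 1) * ((e + 1) * (4 * (T *
      (2 * (k + 1) * (N * T) * D + 1) ^ k)))))
      ≤ 2 * (2 ^ (k + 1) * (2 ^ (k + 1) * ((e + 1) * (4 * (T *
        ((2 * (k + 1) * D + 1) * (N * T)) ^ k))))) := by gcongr
    _ = (2 * (4 ^ (k + 2) * (e + 1) * (2 * (k + 1) * D + 1) ^ k)) * T * (N * T) ^ k := by
        rw [h3, mul_pow]
        ring
    _ = (N * T) ^ (k + 1) := by
        rw [← hN, pow_succ]
        ring
    _ ≤ (N * T + 1) ^ (k + 1) := Nat.pow_le_pow_left (Nat.le_succ _) _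

theorem count_J (k e D m N J : ℕ) (j : Fin m → ℕ)
    (hN : N = 2 * (4 ^ (k + 2) * (e + 1) * (2 * (k + 1) * D + 1) ^ k))
    (hm : 2 * (2 * m + 1) ^ (k + 1) ≤ 2 ^ m) :
    2 * ((2 ^ (k + 1)) ^ m * ((2 ^ (k + 1)) ^ m * ((e + 1) ^ m *
      (((2 * m + 1) * (N * 4 ^ J) + 1) ^ (k + 1) *
        (4 ^ m * ∏ i, (4 ^ (J - j i) * (2 * (k + 1) * (N * 4 ^ (J - j i)) * D + 1) ^ k)))))) ≤
      (N * 4 ^ J + 1) ^ (k + 1) * ∏ i, (N * 4 ^ (J - j i) + 1) ^ (k + 1) := by
  obtain ⟨R, hR⟩ : ∃ R, R = (2 ^ (k + 1)) ^ m * ((2 ^ (k + 1)) ^ m * ((e + 1) ^ m *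
      (4 ^ m * ∏ i, (4 ^ (J - j i) * (2 * (k + 1) * (N * 4 ^ (J - j i)) * D + 1) ^ k)))) :=
    ⟨_, rfl⟩
  have h1 : 2 ^ m * R ≤ ∏ i, (N * 4 ^ (J - j i) + 1) ^ (k + 1) := by
    have h2 := Finset.prod_le_prod (s := (Finset.univ : Finset (Fin m))) (fun i _ => Nat.zero_le _)
      fun i _ => CJ3_row k e D N (4 ^ (J - j i)) (Nat.one_le_pow _ _ (by norm_num)) hN
    refine le_trans (le_of_eq ?_) h2
    rw [Finset.prod_mul_distrib, Finset.prod_mul_distrib, Finset.prod_mul_distrib,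
      Finset.prod_mul_distrib, Finset.prod_mul_distrib, Finset.prod_const, Finset.prod_const,
      Finset.prod_const, Finset.prod_const, Finset.card_univ, Fintype.card_fin, hR]
  have h3 : (2 * m + 1) * (N * 4 ^ J) + 1 ≤ (2 * m + 1) * (N * 4 ^ J + 1) := by
    have : (2 * m + 1) * (N * 4 ^ J + 1) = (2 * m + 1) * (N * 4 ^ J) + (2 * m + 1) := by ring
    omega
  have h4 := Nat.pow_le_pow_left h3 (k + 1)
  rw [mul_pow] at h4
  calc _ = 2 * R * ((2 * m + 1) * (N * 4 ^ J) + 1) ^ (k + 1) := by rw [hR]; ring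
    _ ≤ 2 * R * ((2 * m + 1) ^ (k + 1) * (N * 4 ^ J + 1) ^ (k + 1)) :=
        Nat.mul_le_mul_left _ h4
    _ = (2 * (2 * m + 1) ^ (k + 1)) * (R * (N * 4 ^ J + 1) ^ (k + 1)) := by ring
    _ ≤ 2 ^ m * (R * (N * 4 ^ J + 1) ^ (k + 1)) := Nat.mul_le_mul_right _ hm
    _ = (N * 4 ^ J + 1) ^ (k + 1) * (2 ^ m * R) := by ring
    _ ≤ _ := Nat.mul_le_mul_left _ h1

theorem exists_m0 (k : ℕ) : ∃ m₀ : ℕ, ∀ m, m₀ ≤ m → 2 * (2 * m + 1) ^ (k + 1) ≤ 2 ^ m := by
  have h1 := (isLittleO_pow_const_const_pow_of_one_lt (R := ℝ) (k + 1) (r := 2)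
    (by norm_num)).bound (c := 1 / (2 * 3 ^ (k + 1))) (by positivity)
  obtain ⟨a, ha⟩ := Filter.eventually_atTop.1 h1
  refine ⟨max a 1, fun m hm => ?_⟩
  have h2 := ha m ((le_max_left _ _).trans hm)
  have h3 : 1 ≤ m := (le_max_right _ _).trans hm
  rw [Real.norm_of_nonneg (by positivity), Real.norm_of_nonneg (by positivity), div_mul_eq_mul_div,
    one_mul, le_div_iff₀ (by positivity)] at h2
  have h4 : (2 : ℝ) * (2 * m + 1) ^ (k + 1) ≤ 2 ^ m := by
    have h5 : (1 : ℝ) ≤ m := by exact_mod_cast h3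
    have h6 : (2 * (m : ℝ) + 1) ^ (k + 1) ≤ (3 * m) ^ (k + 1) :=
      pow_le_pow_left₀ (by positivity) (by linarith) _
    rw [mul_pow] at h6
    calc (2 : ℝ) * (2 * m + 1) ^ (k + 1) ≤ 2 * (3 ^ (k + 1) * (m : ℝ) ^ (k + 1)) :=
          mul_le_mul_of_nonneg_left h6 (by norm_num)
      _ = (m : ℝ) ^ (k + 1) * (2 * 3 ^ (k + 1)) := by ring
      _ ≤ 2 ^ m := h2
  exact_mod_cast h4

theorem log_unknownsJ (k m N J : ℕ) (j : Fin m → ℕ) :
    Real.log (((N * 4 ^ J + 1) ^ (k + 1) * ∏ i, (N * 4 ^ (J - j i) + 1) ^ (k + 1) : ℕ) : ℝ) ≤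
      (k + 1) * (m + 1) * (N * 4 ^ J) := by
  push_cast
  have hB : (0 : ℝ) ≤ (N : ℝ) * 4 ^ J := by positivity
  have hlog : ∀ x : ℝ, 0 ≤ x → Real.log (x + 1) ≤ x := by
    intro x hx
    have := Real.log_le_sub_one_of_pos (show 0 < x + 1 by linarith)
    linarith
  rw [Real.log_mul (by positivity) (Finset.prod_ne_zero_iff.2 fun i _ => by positivity),
    Real.log_prod (fun i _ => by positivity), Real.log_pow]
  have h1 : ∀ i ∈ (Finset.univ : Finset (Fin m)),
      Real.log (((N : ℝ) * 4 ^ (J - j i) + 1) ^ (k + 1)) ≤ (k + 1) * ((N : ℝ) * 4 ^ J) := by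
    intro i _
    rw [Real.log_pow]
    push_cast
    refine mul_le_mul_of_nonneg_left ?_ (by positivity)
    refine (hlog _ (by positivity)).trans ?_
    refine mul_le_mul_of_nonneg_left ?_ (by positivity)
    exact pow_le_pow_right₀ (by norm_num) (Nat.sub_le _ _)
  have h2 := Finset.sum_le_sum h1
  rw [Finset.sum_const, Finset.card_univ, Fintype.card_fin, nsmul_eq_mul] at h2
  have h3 : (((k + 1 : ℕ) : ℝ)) * Real.log ((N : ℝ) * 4 ^ J + 1) ≤ (k + 1) * ((N : ℝ) * 4 ^ J) := by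
    push_cast
    exact mul_le_mul_of_nonneg_left (hlog _ hB) (by positivity)
  calc _ ≤ (k + 1) * ((N : ℝ) * 4 ^ J) + m * ((k + 1) * ((N : ℝ) * 4 ^ J)) := add_le_add h3 h2
    _ = _ := by ring

end Pool.Agent.Lib.MP_17a322_nt.VDL
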