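import Pool.Agent.Lib.MP_17a322_nt.VDL.LF
import Pool.Agent.Lib.MP_17a322_nt.VDL.CJ4
import Pool.Agent.Lib.MP_17a322_nt.VN.L1w

/-!
The numerical theorem with the joint gain.
-/

universe u

namespace Pool.Agent.Lib.MP_17a322_nt.VDL

open MvPolynomial Height
open Pool.Agent.Lib.MP_17a322_nt.RO
open Pool.Agent.Lib.MP_17a322_nt.VJ
open Pool.Agent.Lib.MP_17a322_nt.VN

/-- The numerical theorem with the joint gain. -/
theorem S1D {K : Type u} [Field K] [NumberField K] [DecidableEq K] {k : ℕ}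
    (W : Fin (k + 1) → WeierstrassCurve K) [∀ t, (W t).IsElliptic] (χ : Fin (k + 1) → Bool)
    (e D : ℕ) (ε : ℝ) (hε : 0 < ε) :
    ∃ (m D' R₀ : ℕ) (C₀ η : ℝ), 0 < m ∧ 0 ≤ C₀ ∧ 0 < η ∧
      ∀ (P₀ : ∀ t, (W t).toAffine.Point) (P : Fin m → ∀ t, (W t).toAffine.Point) (j : Fin m → ℕ)
        (s y : Fin m → Fin (k + 1) → K) (ρ : Fin m → REP K (k + 1) e),
      (∀ i, R₀ ≤ 4 ^ j i) → (∀ i i', i < i' → R₀ * 4 ^ j i ≤ 4 ^ j i') →
      (∀ i t, P i t ≠ 0) → (∀ i t, CH (χ t) (P i t) (s i t)) →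
      (∀ i t, y i t ^ 2 = ph (W t) (vc (χ t) (s i t))) → (∀ i t, y i t ≠ 0) →
      (∀ i, (ρ i).Deg D) → (∀ i, (ρ i).ht ≤ 4 ^ j i) →
      (∀ i, eval (s i) ((ρ i).z 0) ≠ 0) →
      ε * HN P₀ ≤ gj j s (fun i => eval (s i) ((ρ i).z 0)) →
      (∀ t, P₀ t ≠ 0) → C₀ ≤ HN P₀ →
      (∀ i t, logHeight (P i t - 2 ^ j i • P₀ t).xRep ≤ η * (4 ^ j i * HN P₀)) →
      (∀ i, |HN (P i) - 4 ^ j i * HN P₀| ≤ η * (4 ^ j i * HN P₀)) →
      ∃ (i : Fin m) (G : MvPolynomial (Fin (k + 1)) K), G ≠ 0 ∧ (∀ t, G.degreeOf t ≤ D') ∧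
        nh G ≤ C₀ * 4 ^ j i ∧ eval (s i) G = 0 := by
  classical
  obtain ⟨N, hN1, m₀, hN⟩ := exists_auxJ W e D
  have hε2 : 0 < ε / 2 := half_pos hε
  obtain ⟨m1, hm1'⟩ := exists_nat_ge ((2 * N + 8 : ℝ) * 4 / (ε / 2))
  obtain ⟨m, hmd⟩ : ∃ m : ℕ, m = max (max m₀ m1) 1 := ⟨_, rfl⟩
  have hm0 : m₀ ≤ m := by
    rw [hmd]
    exact (le_max_left _ _).trans (le_max_left _ _)
  have hm1 : 1 ≤ m := by
    rw [hmd]
    exact le_max_right _ _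
  have hNε : (2 * N + 8 : ℝ) ≤ m * (ε / 2) / 4 := by
    have h1 : (m1 : ℝ) ≤ m := by
      rw [hmd]
      exact_mod_cast (le_max_right m₀ m1).trans (le_max_left _ 1)
    have h2 := hm1'.trans h1
    rw [div_le_iff₀ hε2] at h2
    linarith
  obtain ⟨CA, hCA, haux⟩ := hN m hm0
  obtain ⟨C₁, hC₁, hel⟩ := elim_one W χ m
  obtain ⟨C, hC, hin⟩ := ineq_joint W χ e D m N hN1
  obtain ⟨C₂, hC₂d⟩ : ∃ C₂ : ℝ, C₂ = C₁ + 1 := ⟨_, rfl⟩
  have hC₂ : 0 < C₂ := by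
    rw [hC₂d]
    linarith
  obtain ⟨CF, hCFd⟩ : ∃ CF : ℝ, CF = CA * (m + 1) := ⟨_, rfl⟩
  have hCF : 0 ≤ CF := by
    rw [hCFd]
    positivity
  obtain ⟨B, hBd⟩ : ∃ B : ℝ, B = CF + Module.finrank ℚ K * (((k + 1 : ℕ) : ℝ) * (m + 1)) + 1 :=
    ⟨_, rfl⟩
  have hB : 0 ≤ B := by
    rw [hBd]
    positivity
  have hN0 : (0 : ℝ) < N := by exact_mod_cast hN1
  have hden : 0 < 8 * ((C₂ * N + 1) * (2 * C + 2)) := by positivity
  obtain ⟨s₀, hs₀d⟩ : ∃ s₀ : ℝ, s₀ = (ε / 2) / (8 * ((C₂ * N + 1) * (2 * C + 2))) := ⟨_, rfl⟩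
  have hs₀ : 0 < s₀ := by
    rw [hs₀d]
    exact div_pos hε2 hden
  have hs : s₀ * (C₂ * N) * (2 * C + 2) ≤ (ε / 2) / 8 := by
    have h1 : s₀ * (8 * ((C₂ * N + 1) * (2 * C + 2))) = ε / 2 := by
      rw [hs₀d]
      exact div_mul_cancel₀ (ε / 2) hden.ne'
    have h2 : s₀ * (C₂ * N) * (2 * C + 2) ≤ s₀ * (C₂ * N + 1) * (2 * C + 2) := by
      have h3 : s₀ * (C₂ * N) ≤ s₀ * (C₂ * N + 1) :=
        mul_le_mul_of_nonneg_left (by linarith) hs₀.le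
      exact mul_le_mul_of_nonneg_right h3 (by linarith)
    have h4 : s₀ * (C₂ * N + 1) * (2 * C + 2) = (ε / 2) / 8 := by
      rw [← h1]
      ring
    rw [← h4]
    exact h2
  obtain ⟨R₁, D', B', hB', hord⟩ := order_T (K := K) m (k + 1) none s₀ B hs₀ hB
  obtain ⟨η, C₃, hη, hC₃, hnum⟩ := numeric_end (k + 1) m N (ε / 2) C C₂ s₀ CF hε2 hm1 hNε hC
    hC₂.le hs₀ hs hCF
  refine ⟨m, D', max R₁ 2, max C₃ B', min η 1, hm1, le_max_of_le_left hC₃,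
    lt_min hη one_pos, ?_⟩
  intro P₀ P j s y ρ hR hgap hP hch hy hy0 hdeg hht hz hgj hP₀ hHN hE hHP
  obtain ⟨J, hJd⟩ : ∃ J, J = Finset.univ.sup j := ⟨_, rfl⟩
  have hJ : ∀ i, j i ≤ J := fun i => by
    rw [hJd]
    exact Finset.le_sup (Finset.mem_univ i)
  have h4J : (0 : ℝ) < 4 ^ J := by positivity
  have hpow : ∀ i, (4 : ℝ) ^ (J - j i) * 4 ^ j i = 4 ^ J := fun i => by
    rw [← pow_add, Nat.sub_add_cancel (hJ i)]
  have hH0 : 0 ≤ HN P₀ := Finset.sum_nonneg fun t _ => logHeight_nonneg _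
  obtain ⟨F₀, hF0ne, hF0s, hCC, hF0h⟩ := haux J j ρ χ hJ hdeg
  have hF0h' : logHeight (fun p : (box (fun _ : Fin (k + 1) => N * 4 ^ J + 1)) ×
      (BB (fun i : Fin m => N * 4 ^ (J - j i) + 1) : Finset (Fin m → Fin (k + 1) → ℕ)) =>
        F₀ p.1 p.2) ≤ CF * 4 ^ J := by
    refine hF0h.trans ?_
    have h1 : ∑ i, (4 : ℝ) ^ (J - j i) * (ρ i).ht ≤ ∑ _i : Fin m, (4 : ℝ) ^ J := by
      refine Finset.sum_le_sum fun i _ => ?_
      rw [← hpow i]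
      exact mul_le_mul_of_nonneg_left (hht i) (by positivity)
    rw [Finset.sum_const, Finset.card_univ, Fintype.card_fin, nsmul_eq_mul] at h1
    have h2 := mul_le_mul_of_nonneg_left (add_le_add_right h1 ((4 : ℝ) ^ J)) hCA
    refine h2.trans (le_of_eq ?_)
    rw [hCFd]
    ring
  obtain ⟨N₀, hN₀d⟩ : ∃ N₀, N₀ = NF (box (fun _ : Fin (k + 1) => N * 4 ^ J + 1))
      (BB (fun i : Fin m => N * 4 ^ (J - j i) + 1)) F₀ := ⟨_, rfl⟩
  have hN₀ne : N₀ ≠ 0 := by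
    rw [hN₀d]
    exact NF_ne _ _ F₀ hF0ne hF0s
  have hdg := NF_degrees (n := k + 1) N J j hJ F₀
  have hN₀h := NF_height N J j F₀ hF0ne hF0s
  rw [← hN₀d] at hdg hN₀h
  obtain ⟨b, hbd⟩ : ∃ b : ℝ, b = N * 4 ^ J := ⟨_, rfl⟩
  have hb : 0 < b := by
    rw [hbd]
    positivity
  have h4b : (4 : ℝ) ^ J ≤ b := by
    rw [hbd]
    exact le_mul_of_one_le_left h4J.le (by exact_mod_cast hN1)
  rw [← hbd] at hdg hN₀h
  have hN₀H : nh N₀ ≤ (B - 1) * b := by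
    refine hN₀h.trans ?_
    have h1 : CF * 4 ^ J ≤ CF * b := mul_le_mul_of_nonneg_left h4b hCF
    rw [hBd]
    have h2 := hF0h'.trans h1
    refine (add_le_add_left h2 _).trans (le_of_eq ?_)
    ring
  obtain ⟨NN, hNN0, hNNne, hNZ, hNS, hNh, -, -, hNd⟩ :=
    hel j b ((B - 1) * b) N₀ hb.le hN₀ne hdg.1 hdg.2.1 hdg.2.2 hN₀H
  have hμ : 0 < C₂ * b := mul_pos hC₂ hb
  have hNS' : ∀ p : Fin m × Fin (k + 1),
      (4 : ℝ) ^ j p.1 * (NN (Fin.last m)).degreeOf (vS p) ≤ C₂ * b := by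
    intro p
    refine (hNS p).trans (mul_le_mul_of_nonneg_right ?_ hb.le)
    rw [hC₂d]
    linarith
  have hNh' : nh (NN (Fin.last m)) ≤ B * (C₂ * b) := by
    refine hNh.trans ?_
    have h1 : C₁ * ((B - 1) * b + b) = B * (C₁ * b) := by ring
    rw [h1]
    refine mul_le_mul_of_nonneg_left (mul_le_mul_of_nonneg_right ?_ hb.le) hB
    rw [hC₂d]
    linarith
  have hgap1 : ∀ i i', i < i' → R₁ * 4 ^ j i ≤ 4 ^ j i' := fun i i' h =>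
    (Nat.mul_le_mul_right _ (le_max_left R₁ 2)).trans (hgap i i' h)
  rcases hord j (fun p => s p.1 p.2) (NN (Fin.last m)) (C₂ * b) hgap1 hNNne hμ hNZ
    (fun i t ht => absurd ht (Option.not_mem_none t)) hNS' hNh' with
    ⟨i, G, hG0, -, hGd, hGh, hGe⟩ | ⟨a, c, ha, hc, hcx⟩
  · refine ⟨i, G, hG0, hGd, ?_, hGe⟩
    exact hGh.trans (mul_le_mul_of_nonneg_right (le_max_right _ _) (by positivity))
  · exfalso
    have hINEQ := hin P₀ P j s y ρ J F₀ NN a c hJ hP hch hy hy0 hdeg hht hz hF0ne hF0s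
      (fun L _ _ x0 => ORJ_of_CCJ ρ W χ N J j F₀ hCC x0)
      (by rw [hNN0, hN₀d]) hNZ hNd hc
      (fun L _ _ x ζ S hS => hcx L x ζ S (fun p _ => hS p))
    have hmul : ∀ i, min η 1 * (4 ^ j i * HN P₀) ≤ η * (4 ^ j i * HN P₀) := fun i =>
      mul_le_mul_of_nonneg_right (min_le_left _ _) (mul_nonneg (by positivity) hH0)
    refine hnum _ (HN P₀) J j (fun _ => 0) _ _ (fun _ => 0) _ a hJ
      (geom_J j J (max R₁ 2) hJ (le_max_right _ _) hgap) ((le_max_left _ _).trans hHN) hF0h'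
      (fun i => Finset.sum_nonneg fun t _ => logHeight_nonneg _) (fun i => ?_)
      (fun i => (hHP i).trans (hmul i)) (fun i => ?_)
      (fun i => Or.inl rfl) (fun i => ?_) ?_ hINEQ
    · refine (Finset.sum_le_sum fun t _ => (hE i t).trans (hmul i)).trans (le_of_eq ?_)
      rw [Finset.sum_const, Finset.card_univ, Fintype.card_fin, nsmul_eq_mul]
    · have h1 := (abs_le.1 (hHP i)).2
      have h2 : min η 1 * (4 ^ j i * HN P₀) ≤ 1 * (4 ^ j i * HN P₀) :=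
        mul_le_mul_of_nonneg_right (min_le_right _ _) (mul_nonneg (by positivity) hH0)
      have h3 : HN (P i) ≤ 2 * (4 ^ j i * HN P₀) := by linarith
      have h4 := mul_le_mul_of_nonneg_left h3 hε2.le
      have h5 : (0 : ℝ) < 4 ^ j i := by positivity
      have h6 := mul_le_mul_of_nonneg_left hgj h5.le
      linarith
    · rw [← hbd, Nat.cast_zero, mul_zero]
      exact hμ.le
    · rw [← hbd]
      exact ha

end Pool.Agent.Lib.MP_17a322_nt.VDL
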