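import Pool.Agent.Lib.MP_17a322_nt.VN.C06
import Pool.Agent.Lib.MP_17a322_nt.VN.C10

/-!
Joint estimates: the core estimate with a general set of vanishing coefficients, and the product of
polynomials in separate blocks of variables.
-/

universe u

namespace Pool.Agent.Lib.MP_17a322_nt.VDL

open MvPolynomial Height
open Pool.Agent.Lib.MP_17a322_nt.RO
open Pool.Agent.Lib.MP_17a322_nt.VJ
open Pool.Agent.Lib.MP_17a322_nt.VN

/-- The core estimate: the coefficients at the exponents without `p` vanish. -/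
theorem core_joint {L : Type*} [Field L] {v : AbsoluteValue L ℝ} {A : Type*} [CommRing A]
    [Algebra L A] {μ : A → ℝ} (h : SN v μ) {σ : Type*} [Fintype σ] (z : σ → A) {ι : Type*}
    (s : Finset ι) (Φ : ι → A) (H : ι → MvPolynomial σ L) (p : (σ →₀ ℕ) → Prop)
    (hT : ∀ β : σ →₀ ℕ, ¬ p β → ∑ i ∈ s, Φ i * algebraMap L A (coeff β (H i)) = 0)
    {B G M : ℝ} (hB0 : 0 ≤ B) (hG0 : 0 ≤ G) (hM0 : 0 ≤ M)
    (hmon : ∀ i ∈ s, ∀ β ∈ (H i).support, p β → μ (∏ t, z t ^ β t) ≤ M)
    (hB : ∀ i ∈ s, μ (Φ i) ≤ B) (hG : ∀ i ∈ s, NV v (H i) ≤ G) :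
    μ (∑ i ∈ s, Φ i * aeval z (H i)) ≤ cst v s.card * (B * (G * M)) := by
  classical
  -- the low part vanishes
  have hlow : ∑ i ∈ s, Φ i * aeval z (C06_part (fun m => ¬ p m) (H i)) = 0 := by
    set U : Finset (σ →₀ ℕ) := (s.biUnion fun i => (H i).support).filter fun m => ¬ p m with hU
    have h1 : ∀ i ∈ s, aeval z (C06_part (fun m => ¬ p m) (H i)) =
        ∑ β ∈ U, algebraMap L A (coeff β (H i)) * ∏ t, z t ^ β t := by
      intro i hi
      rw [aeval_def, eval₂_eq']
      have h2 : ∑ d ∈ (C06_part (fun m => ¬ p m) (H i)).support,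
          algebraMap L A (coeff d (C06_part (fun m => ¬ p m) (H i))) * ∏ t, z t ^ d t =
          ∑ d ∈ (C06_part (fun m => ¬ p m) (H i)).support,
          algebraMap L A (coeff d (H i)) * ∏ t, z t ^ d t := by
        refine Finset.sum_congr rfl fun d hd => ?_
        rw [C06_coeff, if_pos (C06_support _ _ d hd).2]
      rw [h2]
      refine Finset.sum_subset ?_ ?_
      · intro d hd
        rw [hU, Finset.mem_filter, Finset.mem_biUnion]
        exact ⟨⟨i, hi, (C06_support _ _ d hd).1⟩, (C06_support _ _ d hd).2⟩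
      · intro d hd hd'
        rw [hU, Finset.mem_filter] at hd
        rw [notMem_support_iff, C06_coeff, if_pos hd.2] at hd'
        rw [hd', map_zero, zero_mul]
    have h3 : ∑ i ∈ s, Φ i * aeval z (C06_part (fun m => ¬ p m) (H i)) =
        ∑ β ∈ U, (∑ i ∈ s, Φ i * algebraMap L A (coeff β (H i))) * ∏ t, z t ^ β t := by
      rw [Finset.sum_congr rfl fun i hi => by rw [h1 i hi, Finset.mul_sum], Finset.sum_comm]
      refine Finset.sum_congr rfl fun β _ => ?_
      rw [Finset.sum_mul]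
      refine Finset.sum_congr rfl fun i _ => ?_
      rw [mul_assoc]
    rw [h3]
    refine Finset.sum_eq_zero fun β hβ => ?_
    rw [hU, Finset.mem_filter] at hβ
    rw [hT β hβ.2, zero_mul]
  have hsplit : ∑ i ∈ s, Φ i * aeval z (H i) = ∑ i ∈ s, Φ i * aeval z (C06_part p (H i)) := by
    have h1 : ∑ i ∈ s, Φ i * aeval z (H i) =
        ∑ i ∈ s, Φ i * aeval z (C06_part p (H i)) +
          ∑ i ∈ s, Φ i * aeval z (C06_part (fun m => ¬ p m) (H i)) := by
      rw [← Finset.sum_add_distrib]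
      refine Finset.sum_congr rfl fun i _ => ?_
      rw [← mul_add, ← map_add, ← C06_add]
    rw [h1, hlow, add_zero]
  rw [hsplit]
  have hfin : ∀ i ∈ s, μ (Φ i * aeval z (C06_part p (H i))) ≤ B * (G * M) := by
    intro i hi
    refine (h.mul _ _).trans ?_
    refine mul_le_mul (hB i hi) ?_ (h.nonneg _) hB0
    refine (SN_aeval_mon h (C06_part p (H i)) z hM0 fun β hβ => ?_).trans ?_
    · obtain ⟨hβ1, hβ2⟩ := C06_support _ _ β hβ
      exact hmon i hi β hβ1 hβ2
    · exact mul_le_mul_of_nonneg_right ((C06_NV_le v p (H i)).trans (hG i hi)) hM0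
  exact h.sum_le s _ (mul_nonneg hB0 (mul_nonneg hG0 hM0)) hfin

/-- The exponents with the blocks `β i`. -/
noncomputable def jn {m n : ℕ} (β : Fin m → Fin n →₀ ℕ) : Fin m × Fin n →₀ ℕ :=
  Finsupp.equivFunOnFinite.symm fun p => β p.1 p.2

/-- The blocks of the exponents. -/
noncomputable def sp {m n : ℕ} (β : Fin m × Fin n →₀ ℕ) (i : Fin m) : Fin n →₀ ℕ :=
  Finsupp.equivFunOnFinite.symm fun t => β (i, t)

theorem jn_apply {m n : ℕ} (β : Fin m → Fin n →₀ ℕ) (p : Fin m × Fin n) :
    jn β p = β p.1 p.2 := rfl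

theorem sp_apply {m n : ℕ} (β : Fin m × Fin n →₀ ℕ) (i : Fin m) (t : Fin n) :
    sp β i t = β (i, t) := rfl

theorem sp_jn {m n : ℕ} (β : Fin m → Fin n →₀ ℕ) : sp (jn β) = β := by
  funext i
  refine Finsupp.ext fun t => ?_
  rw [sp_apply, jn_apply]

theorem jn_sp {m n : ℕ} (β : Fin m × Fin n →₀ ℕ) : jn (sp β) = β := by
  refine Finsupp.ext fun p => ?_
  rw [jn_apply, sp_apply]

/-- The product of polynomials in separate blocks of variables. -/
noncomputable def HP {R : Type*} [CommRing R] {m n : ℕ} (H : Fin m → MvPolynomial (Fin n) R) :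
    MvPolynomial (Fin m × Fin n) R :=
  ∏ i, rename (fun t => (i, t)) (H i)

theorem HP_expand {R : Type*} [CommRing R] {m n : ℕ} (H : Fin m → MvPolynomial (Fin n) R) :
    HP H = ∑ β ∈ Fintype.piFinset fun i => (H i).support,
      monomial (jn β) (∏ i, coeff (β i) (H i)) := by
  classical
  have h1 : ∀ i, rename (fun t => (i, t)) (H i) =
      ∑ β ∈ (H i).support, C (coeff β (H i)) * ∏ t, (X (i, t) : MvPolynomial (Fin m × Fin n) R) ^ β t := by
    intro i
    conv_lhs => rw [as_sum (H i)]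
    rw [map_sum]
    refine Finset.sum_congr rfl fun β _ => ?_
    rw [rename_monomial, monomial_eq, Finsupp.prod_mapDomain_index_inj
      (fun a b hab => (Prod.mk.inj hab).2), Finsupp.prod_fintype _ _ (fun t => pow_zero _)]
  unfold HP
  rw [Finset.prod_congr rfl fun i _ => h1 i, Finset.prod_univ_sum]
  refine Finset.sum_congr rfl fun β _ => ?_
  rw [Finset.prod_mul_distrib, ← map_prod, monomial_eq,
    Finsupp.prod_fintype _ _ (fun p => pow_zero _), Fintype.prod_prod_type]
  rfl

theorem HP_coeff {R : Type*} [CommRing R] {m n : ℕ} (H : Fin m → MvPolynomial (Fin n) R)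
    (β : Fin m × Fin n →₀ ℕ) : coeff β (HP H) = ∏ i, coeff (sp β i) (H i) := by
  classical
  rw [HP_expand, coeff_sum]
  simp only [coeff_monomial]
  by_cases hβ : sp β ∈ Fintype.piFinset fun i => (H i).support
  · rw [Finset.sum_eq_single (sp β)]
    · rw [if_pos (jn_sp β)]
    · intro β' _ hne
      rw [if_neg]
      intro h1
      apply hne
      rw [← h1, sp_jn]
    · intro h1
      exact absurd hβ h1
  · rw [Finset.sum_eq_zero, eq_comm]
    · rw [Fintype.mem_piFinset] at hβ
      push Not at hβ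
      obtain ⟨i, hi⟩ := hβ
      exact Finset.prod_eq_zero (Finset.mem_univ i) (notMem_support_iff.1 hi)
    · intro β' hβ'
      rw [if_neg]
      intro h1
      apply hβ
      rw [← h1, sp_jn]
      exact hβ'

theorem HP_support {R : Type*} [CommRing R] {m n : ℕ} (H : Fin m → MvPolynomial (Fin n) R)
    (β : Fin m × Fin n →₀ ℕ) (hβ : β ∈ (HP H).support) (i : Fin m) : sp β i ∈ (H i).support := by
  rw [mem_support_iff, HP_coeff] at hβ
  rw [mem_support_iff]
  intro h
  exact hβ (Finset.prod_eq_zero (Finset.mem_univ i) h)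

theorem HP_aeval {R : Type*} [CommRing R] {m n : ℕ} (H : Fin m → MvPolynomial (Fin n) R)
    {A : Type*} [CommRing A] [Algebra R A] (z : Fin m × Fin n → A) :
    aeval z (HP H) = ∏ i, aeval (fun t => z (i, t)) (H i) := by
  unfold HP
  rw [map_prod]
  refine Finset.prod_congr rfl fun i _ => ?_
  rw [aeval_rename]
  rfl

theorem HP_NV {L : Type*} [Field L] (v : AbsoluteValue L ℝ) {m n : ℕ}
    (H : Fin m → MvPolynomial (Fin n) L) : NV v (HP H) ≤ ∏ i, NV v (H i) := by
  unfold HP
  refine ((SN_NV (L := L) v (σ := Fin m × Fin n)).prod_le Finset.univ _).trans (le_of_eq ?_)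
  refine Finset.prod_congr rfl fun i _ => ?_
  exact NV_rename v (H i) _ fun a b hab => (Prod.mk.inj hab).2

end Pool.Agent.Lib.MP_17a322_nt.VDL
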