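import Pool.Agent.Lib.MP_17a322_nt.VDL.LDefs
import Pool.Agent.Lib.MP_17a322_nt.VDL.LA
import Pool.Agent.Lib.MP_17a322_nt.VN.C08

/-!
The estimate of families of block polynomials with joint vanishing conditions.
-/

universe u

namespace Pool.Agent.Lib.MP_17a322_nt.VDL

open MvPolynomial Height
open Pool.Agent.Lib.MP_17a322_nt.RO
open Pool.Agent.Lib.MP_17a322_nt.VJ
open Pool.Agent.Lib.MP_17a322_nt.VN

theorem cst_prod {L : Type*} [Field L] (v : AbsoluteValue L ℝ) {ι : Type*} (s : Finset ι)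
    (n : ι → ℕ) : cst v (∏ i ∈ s, n i) = ∏ i ∈ s, cst v (n i) := by
  classical
  induction s using Finset.induction_on with
  | empty => rw [Finset.prod_empty, Finset.prod_empty, cst_one]
  | insert a s ha ih => rw [Finset.prod_insert ha, Finset.prod_insert ha, cst_mul, ih]

theorem BB_nonneg {A : Type*} {μ : A → ℝ} (h : ∀ a, 0 ≤ μ a) {m n : ℕ} {b : Fin m → ℕ} {B : ℝ}
    (Φ : (Fin m → Fin n → ℕ) → A) (hB : ∀ ν ∈ BB (fun i => b i + 1), μ (Φ ν) ≤ B) : 0 ≤ B := by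
  refine (h (Φ 0)).trans (hB 0 ?_)
  rw [mem_BB]
  intro i t
  exact Nat.succ_pos (b i)

/-- Degrees and size of the polynomials of one block. -/
theorem H_bound {K L : Type*} [Field K] [Field L] [Algebra K L] (v : AbsoluteValue L ℝ) {n e : ℕ}
    (ρ : REP K n e) {D : ℕ} (hD : ρ.Deg D) (W : Fin n → WeierstrassCurve K)
    (χ : Fin n → Bool) (j b : ℕ) (x0 : Fin n → L) (c ε : Fin n → Bool)
    (ν : Fin n → ℕ) (hν : ∀ t, ν t ≤ b) (l : Fin (e + 1)) :
    (∀ t, degreeOf t (spx x0 (GG ρ (UU W χ j b c ε ν) l)) ≤ n * (2 * b) * D) ∧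
      NV v (spx x0 (GG ρ (UU W χ j b c ε ν) l)) ≤
        (∏ t, lc (W t) v) ^ (49 * (b * 4 ^ j)) *
          (cst v (e + 1) * (ρ.map (algebraMap K L)).RB v) ^ (n * (2 * b)) *
            (∏ t, max 1 (v (x0 t))) ^ (2 * (b * 4 ^ j)) := by
  have hdr : ∑ t, degreeOf (Sum.inr t) (UU W χ j b c ε ν) ≤ n * (2 * b) := by
    refine (Finset.sum_le_card_nsmul Finset.univ _ (2 * b)
      fun t _ => (UU_degree W χ j b c ε ν hν t).2).trans (le_of_eq ?_)
    rw [Finset.card_univ, Fintype.card_fin, smul_eq_mul]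
  refine ⟨fun t => ?_, ?_⟩
  · exact (spx_degree x0 _ t).trans (GG_degree_inr ρ _ hdr t
      (fun j' l' m' => (degreeOf_le_totalDegree _ _).trans (hD.2.2 j' l' m')) l)
  · have hinj : Function.Injective (algebraMap K L) := (algebraMap K L).injective
    have h1 := spx_NV v x0 (GG ρ (UU W χ j b c ε ν) l) (D := 2 * (b * 4 ^ j))
      fun t => (GG_degree_inl ρ _ l t).trans (UU_degree W χ j b c ε ν hν t).1
    rw [GG_map (algebraMap K L) hinj] at h1
    have hdr' : ∑ t, degreeOf (Sum.inr t) (MvPolynomial.map (algebraMap K L)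
        (UU W χ j b c ε ν)) ≤ n * (2 * b) := by
      refine le_trans (Finset.sum_le_sum fun t _ => ?_) hdr
      rw [degreeOf_le_iff]
      intro m hm
      exact monomial_le_degreeOf (Sum.inr t) (support_map_subset _ _ hm)
    have h2 := GG_NV v (ρ.map (algebraMap K L)) (MvPolynomial.map (algebraMap K L)
      (UU W χ j b c ε ν)) hdr' (one_le_RB (ρ.map (algebraMap K L)) v)
      (fun j' l' m' => M_le_RB (ρ.map (algebraMap K L)) v j' l' m') l
    have h3 := NV_UU (L := L) v W χ j b c ε ν hν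
    have hR : 0 ≤ (ρ.map (algebraMap K L)).RB v := zero_le_one.trans (one_le_RB _ v)
    refine h1.trans (mul_le_mul_of_nonneg_right ?_ (C08_prod_nonneg _ _))
    exact h2.trans (mul_le_mul_of_nonneg_right h3 (pow_nonneg (mul_nonneg (cst_nonneg _ _) hR) _))

/-- The constants of one block. -/
theorem block_bases {c2 ce R κ ω Lc Y : ℝ} (h2 : 1 ≤ c2) (he : 1 ≤ ce) (hR : 1 ≤ R) (hκ : 1 ≤ κ)
    (hω : 1 ≤ ω) (hLc : 0 ≤ Lc) (hY : 0 ≤ Y) {b k D : ℕ} {cc : ℝ} (hb : 1 ≤ b) (hcc0 : 0 ≤ cc)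
    (hcc : cc ≤ c2 ^ ((k + 1) * b)) :
    ce * (R * ω ^ ((k + 1) * D)) * (cc * (Lc * (ce * R) ^ ((k + 1) * (2 * b)) * Y) *
        (κ ^ ((k + 1) * (2 * b) * D) *
          (R * ω ^ ((k + 1) * D)) ^ (k * ((k + 1) * (2 * b) * D)))) ≤
      Lc * Y * (c2 * ce * R * κ * ω) ^ (CE k D * b) := by
  have h0 : 0 ≤ Lc * Y := mul_nonneg hLc hY
  have hcc' : cc ≤ c2 ^ ((k + 2) * b) :=
    hcc.trans (pow_le_pow_right₀ h2 (Nat.mul_le_mul_right b (by omega)))
  have hbase := C08_bases h2 he hR hκ hω hcc0 (n := k + 2) (b := b) (k := k) (D := D)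
    (E := (k + 2) * (2 * b) * D) rfl hb hcc' rfl
  obtain ⟨E', hE'⟩ : ∃ E' : ℕ, E' = (k + 1) * (2 * b) * D := ⟨_, rfl⟩
  obtain ⟨E, hE⟩ : ∃ E : ℕ, E = (k + 2) * (2 * b) * D := ⟨_, rfl⟩
  have hEE : E' ≤ E := by
    rw [hE', hE]
    exact Nat.mul_le_mul_right D (Nat.mul_le_mul_right _ (by omega))
  rw [← hE] at hbase
  rw [← hE']
  have x1 : 1 + (k + 1) * (2 * b) ≤ 1 + (k + 2) * (2 * b) :=
    Nat.add_le_add_left (Nat.mul_le_mul_right _ (by omega)) 1
  have x2 : 1 + (k + 1) * (2 * b) + k * E' ≤ 1 + (k + 2) * (2 * b) + k * E :=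
    Nat.add_le_add x1 (Nat.mul_le_mul_left k hEE)
  have x3 : E' ≤ 2 * E := by omega
  have x4 : (k + 1) * D + (k + 1) * D * (k * E') ≤ (k + 2) * D + (k + 2) * D * (k * E) := by
    have h5 : (k + 1) * D ≤ (k + 2) * D := Nat.mul_le_mul_right D (by omega)
    exact Nat.add_le_add h5 (Nat.mul_le_mul h5 (Nat.mul_le_mul_left k hEE))
  have p1 : 0 ≤ ce := zero_le_one.trans he
  have p2 : 0 ≤ c2 := zero_le_one.trans h2
  have p3 : 0 ≤ R := zero_le_one.trans hR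
  have p4 : 0 ≤ κ := zero_le_one.trans hκ
  have p5 : 0 ≤ ω := zero_le_one.trans hω
  calc ce * (R * ω ^ ((k + 1) * D)) * (cc * (Lc * (ce * R) ^ ((k + 1) * (2 * b)) * Y) *
        (κ ^ E' * (R * ω ^ ((k + 1) * D)) ^ (k * E'))) =
      Lc * Y * (ce ^ (1 + (k + 1) * (2 * b)) * cc * R ^ (1 + (k + 1) * (2 * b) + k * E') *
        κ ^ E' * ω ^ ((k + 1) * D + (k + 1) * D * (k * E'))) := by
        rw [mul_pow, mul_pow, ← pow_mul, pow_add, pow_add, pow_add, pow_add, pow_one, pow_one]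
        ring
    _ ≤ Lc * Y * (ce ^ (1 + (k + 2) * (2 * b)) * cc * R ^ (1 + (k + 2) * (2 * b) + k * E) *
        κ ^ (2 * E) * ω ^ ((k + 2) * D + (k + 2) * D * (k * E))) := by
        refine mul_le_mul_of_nonneg_left ?_ h0
        refine mul_le_mul (mul_le_mul (mul_le_mul (mul_le_mul_of_nonneg_right
          (pow_le_pow_right₀ he x1) hcc0) (pow_le_pow_right₀ hR x2) ?_ ?_)
          (pow_le_pow_right₀ hκ x3) ?_ ?_) (pow_le_pow_right₀ hω x4) ?_ ?_ <;> positivity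
    _ ≤ Lc * Y * (c2 * ce * R * κ * ω) ^ (CE k D * b) := mul_le_mul_of_nonneg_left hbase h0

/-- The estimate with the joint conditions. -/
theorem ORJ_estimate {K L : Type*} [Field K] [Field L] [Algebra K L] {v : AbsoluteValue L ℝ}
    {A : Type*} [CommRing A] [Algebra L A] [Algebra K A] [IsScalarTower K L A] {μ : A → ℝ}
    (h : SN v μ) {k e m : ℕ} (ρ : Fin m → REP K (k + 1) e) {D : ℕ} (hD : ∀ i, (ρ i).Deg D)
    (W : Fin (k + 1) → WeierstrassCurve K) (χ : Fin (k + 1) → Bool) {j b : Fin m → ℕ} {T : ℕ}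
    (hb : ∀ i, 1 ≤ b i) (Φ : (Fin m → Fin (k + 1) → ℕ) → A) (x0 : Fin (k + 1) → L)
    (hO : ORJ ρ W χ j b T Φ x0) {B δ : ℝ} {ω κ : Fin m → ℝ}
    (hB : ∀ ν ∈ BB (fun i => b i + 1), μ (Φ ν) ≤ B) (hω : ∀ i, 1 ≤ ω i)
    (hκ : ∀ i, 1 ≤ κ i) (hδ : 0 < δ) (hδ1 : δ ≤ 1) (u : Fin m → Fin (k + 1) → A)
    (hu : ∀ i t, μ (u i t) ≤ ω i)
    (h0 : ∀ i, μ (aeval (u i) ((ρ i).z 0)) ≤ κ i * δ ^ (4 ^ j i))
    (c ε : Fin m → Fin (k + 1) → Bool) :
    μ (∑ ν ∈ BB (fun i => b i + 1), Φ ν *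
        ∏ i, UV W χ (j i) (b i) (fun t => algebraMap L A (x0 t)) (u i) (c i) (ε i) (ν i)) ≤
      B * (∏ i, ((∏ t, lc (W t) v) ^ (49 * (b i * 4 ^ j i)) *
        (∏ t, max 1 (v (x0 t))) ^ (2 * (b i * 4 ^ j i)) *
        (cst v 2 * cst v (e + 1) * ((ρ i).map (algebraMap K L)).RB v * κ i * ω i) ^
          (CE k D * b i))) * δ ^ T := by
  classical
  have hB0 : 0 ≤ B := BB_nonneg h.nonneg Φ hB
  obtain ⟨R, hRd⟩ : ∃ R : Fin m → ℝ, R = fun i => ((ρ i).map (algebraMap K L)).RB v := ⟨_, rfl⟩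
  have hR1 : ∀ i, 1 ≤ R i := fun i => by
    rw [hRd]
    exact one_le_RB _ v
  have hR0 : ∀ i, 0 ≤ R i := fun i => zero_le_one.trans (hR1 i)
  have hκ0 : ∀ i, 0 ≤ κ i := fun i => zero_le_one.trans (hκ i)
  have hω0 : ∀ i, 0 ≤ ω i := fun i => zero_le_one.trans (hω i)
  have hce1 : 1 ≤ cst v (e + 1) := one_le_cst v (Nat.succ_pos e)
  have hce0 : 0 ≤ cst v (e + 1) := cst_nonneg _ _
  have hc21 : 1 ≤ cst v 2 := one_le_cst v (by norm_num)
  -- the product of the block polynomials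
  have hev : ∀ ν : Fin m → Fin (k + 1) → ℕ,
      ∏ i, UV W χ (j i) (b i) (fun t => algebraMap L A (x0 t)) (u i) (c i) (ε i) (ν i) =
      ∑ l : Fin m → Fin (e + 1), (∏ i, aeval (u i) ((ρ i).w (l i))) *
        aeval (fun p : Fin m × Fin (k + 1) => aeval (u p.1) ((ρ p.1).z p.2))
          (HP fun i => spx x0 (GG (ρ i) (UU W χ (j i) (b i) (c i) (ε i) (ν i)) (l i))) := by
    intro ν
    have h1 : ∀ i, UV W χ (j i) (b i) (fun t => algebraMap L A (x0 t)) (u i) (c i) (ε i) (ν i) =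
        ∑ l : Fin (e + 1), aeval (u i) ((ρ i).w l) * aeval (fun t => aeval (u i) ((ρ i).z t))
          (spx x0 (GG (ρ i) (UU W χ (j i) (b i) (c i) (ε i) (ν i)) l)) := by
      intro i
      rw [← aeval_UU, GG_eval (ρ i)]
      refine Finset.sum_congr rfl fun l _ => ?_
      rw [aeval_spx]
    rw [Finset.prod_congr rfl fun i _ => h1 i, Finset.prod_univ_sum, Fintype.piFinset_univ]
    refine Finset.sum_congr rfl fun l _ => ?_
    rw [Finset.prod_mul_distrib, HP_aeval]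
  have hsum : ∑ ν ∈ BB (fun i => b i + 1), Φ ν *
        ∏ i, UV W χ (j i) (b i) (fun t => algebraMap L A (x0 t)) (u i) (c i) (ε i) (ν i) =
      ∑ l : Fin m → Fin (e + 1), (∏ i, aeval (u i) ((ρ i).w (l i))) *
        ∑ ν ∈ BB (fun i => b i + 1), Φ ν *
          aeval (fun p : Fin m × Fin (k + 1) => aeval (u p.1) ((ρ p.1).z p.2))
          (HP fun i => spx x0 (GG (ρ i) (UU W χ (j i) (b i) (c i) (ε i) (ν i)) (l i))) := by
    have h1 : ∀ ν ∈ BB (fun i => b i + 1), Φ ν *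
        ∏ i, UV W χ (j i) (b i) (fun t => algebraMap L A (x0 t)) (u i) (c i) (ε i) (ν i) =
        ∑ l : Fin m → Fin (e + 1), (∏ i, aeval (u i) ((ρ i).w (l i))) * (Φ ν *
          aeval (fun p : Fin m × Fin (k + 1) => aeval (u p.1) ((ρ p.1).z p.2))
          (HP fun i => spx x0 (GG (ρ i) (UU W χ (j i) (b i) (c i) (ε i) (ν i)) (l i)))) := by
      intro ν _
      rw [hev, Finset.mul_sum]
      exact Finset.sum_congr rfl fun l _ => mul_left_comm _ _ _
    rw [Finset.sum_congr rfl h1, Finset.sum_comm]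
    exact Finset.sum_congr rfl fun l _ => (Finset.mul_sum _ _ _).symm
  -- sizes
  have hP : ∀ i, ∏ t, (max 1 (μ (u i t))) ^ D ≤ ω i ^ ((k + 1) * D) := fun i =>
    C08_prod_le (u i) (hω i) (hu i) D
  have hzb : ∀ i t, μ (aeval (u i) ((ρ i).z t)) ≤ R i * ω i ^ ((k + 1) * D) := by
    intro i t
    refine (h.aeval_le' ((ρ i).z t) (fun _ => D)
      (fun t' => (degreeOf_le_totalDegree _ _).trans ((hD i).1 t)) (u i)).trans ?_
    refine mul_le_mul ?_ (hP i)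
      (Finset.prod_nonneg fun t _ => pow_nonneg (zero_le_one.trans (le_max_left _ _)) _) (hR0 i)
    rw [hRd]
    exact z_le_RB ((ρ i).map (algebraMap K L)) v t
  have hwb : ∀ i l, μ (aeval (u i) ((ρ i).w l)) ≤ R i * ω i ^ ((k + 1) * D) := by
    intro i l
    refine (h.aeval_le' ((ρ i).w l) (fun _ => D)
      (fun t' => (degreeOf_le_totalDegree _ _).trans ((hD i).2.1 l)) (u i)).trans ?_
    refine mul_le_mul ?_ (hP i)
      (Finset.prod_nonneg fun t _ => pow_nonneg (zero_le_one.trans (le_max_left _ _)) _) (hR0 i)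
    rw [hRd]
    exact w_le_RB ((ρ i).map (algebraMap K L)) v l
  have hΩ1 : ∀ i, 1 ≤ R i * ω i ^ ((k + 1) * D) := fun i =>
    one_le_mul_of_one_le_of_one_le (hR1 i) (one_le_pow₀ (hω i))
  have hΩ0 : ∀ i, 0 ≤ R i * ω i ^ ((k + 1) * D) := fun i => zero_le_one.trans (hΩ1 i)
  obtain ⟨E, hE⟩ : ∃ E : Fin m → ℕ, E = fun i => (k + 1) * (2 * b i) * D := ⟨_, rfl⟩
  obtain ⟨G, hG⟩ : ∃ G : Fin m → ℝ, G = fun i => (∏ t, lc (W t) v) ^ (49 * (b i * 4 ^ j i)) *
      (cst v (e + 1) * R i) ^ ((k + 1) * (2 * b i)) *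
      (∏ t, max 1 (v (x0 t))) ^ (2 * (b i * 4 ^ j i)) := ⟨_, rfl⟩
  obtain ⟨M, hM⟩ : ∃ M : Fin m → ℝ, M = fun i => κ i ^ E i *
      (R i * ω i ^ ((k + 1) * D)) ^ (k * E i) := ⟨_, rfl⟩
  have hLc0 : ∀ i, 0 ≤ (∏ t, lc (W t) v) ^ (49 * (b i * 4 ^ j i)) := fun i =>
    C08_lc_nonneg v W _
  have hY0 : ∀ i, 0 ≤ (∏ t, max 1 (v (x0 t))) ^ (2 * (b i * 4 ^ j i)) := fun i =>
    C08_prod_nonneg _ _
  have hG0 : ∀ i, 0 ≤ G i := fun i => by
    rw [hG]
    exact mul_nonneg (mul_nonneg (hLc0 i) (pow_nonneg (mul_nonneg hce0 (hR0 i)) _)) (hY0 i)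
  have hM0 : ∀ i, 0 ≤ M i := fun i => by
    rw [hM]
    exact mul_nonneg (pow_nonneg (hκ0 i) _) (pow_nonneg (hΩ0 i) _)
  have hbox : ∀ ν ∈ BB (fun i => b i + 1), ∀ i (t : Fin (k + 1)), ν i t ≤ b i := by
    intro ν hν i t
    rw [mem_BB] at hν
    exact Nat.lt_succ_iff.1 (hν i t)
  have hcore : ∀ l : Fin m → Fin (e + 1), μ (∑ ν ∈ BB (fun i => b i + 1), Φ ν *
          aeval (fun p : Fin m × Fin (k + 1) => aeval (u p.1) ((ρ p.1).z p.2))
          (HP fun i => spx x0 (GG (ρ i) (UU W χ (j i) (b i) (c i) (ε i) (ν i)) (l i)))) ≤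
      cst v (∏ i, (b i + 1) ^ (k + 1)) * (B * ((∏ i, G i) * ((∏ i, M i) * δ ^ T))) := by
    intro l
    have h1 := core_joint h (fun p : Fin m × Fin (k + 1) => aeval (u p.1) ((ρ p.1).z p.2))
      (BB (fun i => b i + 1)) Φ
      (fun ν => HP fun i => spx x0 (GG (ρ i) (UU W χ (j i) (b i) (c i) (ε i) (ν i)) (l i)))
      (fun β => T ≤ ∑ i, 4 ^ j i * β (i, 0)) (G := ∏ i, G i) (M := (∏ i, M i) * δ ^ T)
      (fun β hβ => by
        have h2 := hO c ε l (sp β) (not_le.1 hβ)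
        rw [← h2]
        refine Finset.sum_congr rfl fun ν _ => ?_
        rw [HP_coeff])
      hB0 (Finset.prod_nonneg fun i _ => hG0 i)
      (mul_nonneg (Finset.prod_nonneg fun i _ => hM0 i) (pow_nonneg hδ.le T))
      (fun ν hν β hβ hβT => ?_) hB (fun ν hν => ?_)
    · rw [card_BB] at h1
      exact h1
    · -- monomials
      have hdeg : ∀ i t, β (i, t) ≤ E i := by
        intro i t
        have h2 := monomial_le_degreeOf t (HP_support _ β hβ i)
        have h3 := (H_bound v (ρ i) (hD i) W χ (j i) (b i) x0 (c i) (ε i) (ν i)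
          (fun t => hbox ν hν i t) (l i)).1 t
        rw [hE]
        exact h2.trans h3
      have h2 : μ (∏ p : Fin m × Fin (k + 1), aeval (u p.1) ((ρ p.1).z p.2) ^ β p) ≤
          ∏ i, ∏ t, μ (aeval (u i) ((ρ i).z t)) ^ β (i, t) := by
        rw [← Fintype.prod_prod_type' (f := fun i t => μ (aeval (u i) ((ρ i).z t)) ^ β (i, t))]
        refine (h.prod_le _ _).trans ?_
        exact Finset.prod_le_prod (fun p _ => h.nonneg _) fun p _ => h.pow_le _ _
      have h3 : ∀ i, ∏ t, μ (aeval (u i) ((ρ i).z t)) ^ β (i, t) ≤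
          M i * δ ^ (4 ^ j i * β (i, 0)) := by
        intro i
        rw [Fin.prod_univ_succ]
        have h31 : ∏ t : Fin k, μ (aeval (u i) ((ρ i).z t.succ)) ^ β (i, t.succ) ≤
            (R i * ω i ^ ((k + 1) * D)) ^ (k * E i) := by
          have h32 : ∏ t : Fin k, μ (aeval (u i) ((ρ i).z t.succ)) ^ β (i, t.succ) ≤
              ∏ _t : Fin k, (R i * ω i ^ ((k + 1) * D)) ^ E i := by
            refine Finset.prod_le_prod (fun t _ => pow_nonneg (h.nonneg _) _) fun t _ => ?_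
            exact (pow_le_pow_left₀ (h.nonneg _) (hzb i _) _).trans
              (pow_le_pow_right₀ (hΩ1 i) (hdeg i _))
          refine h32.trans (le_of_eq ?_)
          rw [Finset.prod_const, Finset.card_univ, Fintype.card_fin, ← pow_mul, mul_comm (E i) k]
        have h33 : μ (aeval (u i) ((ρ i).z 0)) ^ β (i, 0) ≤
            κ i ^ E i * δ ^ (4 ^ j i * β (i, 0)) := by
          refine (pow_le_pow_left₀ (h.nonneg _) (h0 i) _).trans ?_
          rw [mul_pow, ← pow_mul]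
          exact mul_le_mul_of_nonneg_right (pow_le_pow_right₀ (hκ i) (hdeg i 0))
            (pow_nonneg hδ.le _)
        refine (mul_le_mul h33 h31 (Finset.prod_nonneg fun t _ => pow_nonneg (h.nonneg _) _)
          (mul_nonneg (pow_nonneg (hκ0 i) _) (pow_nonneg hδ.le _))).trans (le_of_eq ?_)
        rw [hM]
        ring
      refine h2.trans ((Finset.prod_le_prod (fun i _ => Finset.prod_nonneg fun t _ =>
        pow_nonneg (h.nonneg _) _) fun i _ => h3 i).trans ?_)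
      rw [Finset.prod_mul_distrib]
      refine mul_le_mul_of_nonneg_left ?_ (Finset.prod_nonneg fun i _ => hM0 i)
      rw [Finset.prod_pow_eq_pow_sum]
      exact pow_le_pow_of_le_one hδ.le hδ1 hβT
    · refine (HP_NV v _).trans (Finset.prod_le_prod (fun i _ => (SN_NV v).nonneg _) fun i _ => ?_)
      have h3 := (H_bound v (ρ i) (hD i) W χ (j i) (b i) x0 (c i) (ε i) (ν i)
          (fun t => hbox ν hν i t) (l i)).2
      rw [hG, hRd]
      exact h3
  rw [hsum]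
  have hcard0 : 0 ≤ cst v (∏ i, (b i + 1) ^ (k + 1)) := cst_nonneg _ _
  have hGp : 0 ≤ ∏ i, G i := Finset.prod_nonneg fun i _ => hG0 i
  have hMp : 0 ≤ ∏ i, M i := Finset.prod_nonneg fun i _ => hM0 i
  have hδT : 0 ≤ δ ^ T := pow_nonneg hδ.le T
  have hcore0 : 0 ≤ cst v (∏ i, (b i + 1) ^ (k + 1)) *
      (B * ((∏ i, G i) * ((∏ i, M i) * δ ^ T))) :=
    mul_nonneg hcard0 (mul_nonneg hB0 (mul_nonneg hGp (mul_nonneg hMp hδT)))
  have hwp : ∀ l : Fin m → Fin (e + 1), μ (∏ i, aeval (u i) ((ρ i).w (l i))) ≤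
      ∏ i, (R i * ω i ^ ((k + 1) * D)) := by
    intro l
    refine (h.prod_le _ _).trans ?_
    exact Finset.prod_le_prod (fun i _ => h.nonneg _) fun i _ => hwb i (l i)
  have hΩp : 0 ≤ ∏ i, (R i * ω i ^ ((k + 1) * D)) := Finset.prod_nonneg fun i _ => hΩ0 i
  have hfin := h.sum_le Finset.univ (fun l : Fin m → Fin (e + 1) =>
      (∏ i, aeval (u i) ((ρ i).w (l i))) * ∑ ν ∈ BB (fun i => b i + 1), Φ ν *
          aeval (fun p : Fin m × Fin (k + 1) => aeval (u p.1) ((ρ p.1).z p.2))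
          (HP fun i => spx x0 (GG (ρ i) (UU W χ (j i) (b i) (c i) (ε i) (ν i)) (l i))))
    (mul_nonneg hΩp hcore0)
    (fun l _ => (h.mul _ _).trans (mul_le_mul (hwp l) (hcore l) (h.nonneg _) hΩp))
  rw [Finset.card_univ, Fintype.card_fun, Fintype.card_fin, Fintype.card_fin, cst_pow] at hfin
  refine hfin.trans ?_
  -- the constants
  have hcc : ∀ i, cst v ((b i + 1) ^ (k + 1)) ≤ cst v 2 ^ ((k + 1) * b i) := fun i =>
    C08_cst_card v (k + 1) (b i)
  have hblk : ∀ i, cst v (e + 1) * (R i * ω i ^ ((k + 1) * D)) *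
      (cst v ((b i + 1) ^ (k + 1)) * G i * M i) ≤
      (∏ t, lc (W t) v) ^ (49 * (b i * 4 ^ j i)) *
        (∏ t, max 1 (v (x0 t))) ^ (2 * (b i * 4 ^ j i)) *
        (cst v 2 * cst v (e + 1) * R i * κ i * ω i) ^ (CE k D * b i) := by
    intro i
    have h1 := block_bases hc21 hce1 (hR1 i) (hκ i) (hω i) (hLc0 i) (hY0 i) (k := k) (D := D)
      (hb i) (cst_nonneg v ((b i + 1) ^ (k + 1))) (hcc i)
    rw [hG, hM, hE]
    exact h1
  have hprod : cst v (e + 1) ^ m * ((∏ i, (R i * ω i ^ ((k + 1) * D))) *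
      (cst v (∏ i, (b i + 1) ^ (k + 1)) * (B * ((∏ i, G i) * ((∏ i, M i) * δ ^ T))))) =
      B * (∏ i, (cst v (e + 1) * (R i * ω i ^ ((k + 1) * D)) *
        (cst v ((b i + 1) ^ (k + 1)) * G i * M i))) * δ ^ T := by
    rw [cst_prod]
    simp only [Finset.prod_mul_distrib, Finset.prod_const, Finset.card_univ, Fintype.card_fin]
    ring
  rw [hprod]
  refine mul_le_mul_of_nonneg_right (mul_le_mul_of_nonneg_left ?_ hB0) hδT
  rw [hRd] at hblk ⊢
  refine Finset.prod_le_prod (fun i _ => ?_) fun i _ => hblk i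
  have h5 : 0 ≤ ((ρ i).map (algebraMap K L)).RB v := by
    have := hR0 i
    rw [hRd] at this
    exact this
  have h6 := hω0 i
  have h7 := hG0 i
  have h8 := hM0 i
  have h9 := cst_nonneg v ((b i + 1) ^ (k + 1))
  positivity

end Pool.Agent.Lib.MP_17a322_nt.VDL
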