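import Pool.Agent.Lib.MP_17a322_nt.VDL.LDefs
import Pool.Agent.Lib.MP_17a322_nt.VN.BC
import Pool.Agent.Lib.MP_17a322_nt.VJ.A7

/-!
The joint gain: finite support, base change, bounds.
-/

universe u

namespace Pool.Agent.Lib.MP_17a322_nt.VDL

open MvPolynomial Height
open Pool.Agent.Lib.MP_17a322_nt.RO
open Pool.Agent.Lib.MP_17a322_nt.VJ
open Pool.Agent.Lib.MP_17a322_nt.VN

private theorem LE_core {L : Type*} [Field L] (v : AbsoluteValue L ℝ) (a : L) :
    0 ≤ - Real.log (min 1 (v a)) := by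
  have h1 : 0 ≤ min 1 (v a) := le_min zero_le_one (v.nonneg _)
  have h2 := Real.log_nonpos h1 (min_le_left _ _)
  linarith

theorem gjv_nonneg {L : Type*} [Field L] {m n : ℕ} (j : Fin m → ℕ) (s : Fin m → Fin n → L)
    (a : Fin m → L) (v : AbsoluteValue L ℝ) : 0 ≤ gjv j s a v := by
  unfold gjv
  split_ifs
  · exact Real.iInf_nonneg fun i => div_nonneg (LE_core v (a i)) (by positivity)
  · exact le_rfl

theorem gjv_le {L : Type*} [Field L] {m n : ℕ} (j : Fin m → ℕ) (s : Fin m → Fin n → L)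
    (a : Fin m → L) (v : AbsoluteValue L ℝ) (i : Fin m) :
    4 ^ j i * gjv j s a v ≤ - Real.log (min 1 (v (a i))) := by
  have h4 : (0 : ℝ) < 4 ^ j i := by positivity
  unfold gjv
  split_ifs
  · have h1 : (⨅ i, (- Real.log (min 1 (v (a i)))) / (4 : ℝ) ^ j i) ≤
        (- Real.log (min 1 (v (a i)))) / 4 ^ j i :=
      ciInf_le (Finite.bddBelow_range _) i
    have h2 := mul_le_mul_of_nonneg_left h1 h4.le
    rwa [mul_div_cancel₀ _ h4.ne'] at h2
  · rw [mul_zero]
    exact LE_core v (a i)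

theorem gjv_empty {L : Type*} [Field L] {n : ℕ} (j : Fin 0 → ℕ) (s : Fin 0 → Fin n → L)
    (a : Fin 0 → L) (v : AbsoluteValue L ℝ) : gjv j s a v = 0 := by
  unfold gjv
  split_ifs
  · exact Real.iInf_of_isEmpty _
  · rfl

theorem FS_gjv {L : Type*} [Field L] [AdmissibleAbsValues L] {m n : ℕ} (j : Fin m → ℕ)
    (s : Fin m → Fin n → L) (a : Fin m → L) (ha : ∀ i, a i ≠ 0) :
    FS fun v : AbsoluteValue L ℝ => gjv j s a v := by
  rcases m with _ | m
  · have h1 : (fun v : AbsoluteValue L ℝ => gjv j s a v) = fun _ => 0 := by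
      funext v
      exact gjv_empty j s a v
    rw [h1]
    unfold FS
    simp
  · have h1 := FS_log_abv (ha 0)
    unfold FS at h1 ⊢
    refine h1.subset fun v hv => ?_
    intro h2
    apply hv
    have h3 : v.val (a 0) = 1 := by
      have h4 : 0 < v.val (a 0) := v.val.pos (ha 0)
      exact Real.eq_one_of_pos_of_log_eq_zero h4 h2
    have h5 := gjv_le j s a v.val 0
    rw [h3, min_self, Real.log_one, neg_zero] at h5
    have h6 := gjv_nonneg j s a v.val
    have h7 : (0 : ℝ) < 4 ^ j 0 := by positivity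
    show gjv j s a v.val = 0
    nlinarith

/-- The factor of the joint gain. -/
noncomputable def dj {L : Type*} [Field L] {m n : ℕ} (j : Fin m → ℕ) (s : Fin m → Fin n → L)
    (a : Fin m → L) (v : AbsoluteValue L ℝ) : ℝ :=
  Real.exp (- gjv j s a v)

theorem dj_pos {L : Type*} [Field L] {m n : ℕ} (j : Fin m → ℕ) (s : Fin m → Fin n → L)
    (a : Fin m → L) (v : AbsoluteValue L ℝ) : 0 < dj j s a v ∧ dj j s a v ≤ 1 := by
  refine ⟨Real.exp_pos _, ?_⟩
  unfold dj
  rw [← Real.exp_zero]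
  refine Real.exp_le_exp.2 ?_
  have := gjv_nonneg j s a v
  linarith

theorem log_dj {L : Type*} [Field L] {m n : ℕ} (j : Fin m → ℕ) (s : Fin m → Fin n → L)
    (a : Fin m → L) (v : AbsoluteValue L ℝ) : Real.log (dj j s a v) = - gjv j s a v := by
  unfold dj
  exact Real.log_exp _

theorem dj_cases {L : Type*} [Field L] {m n : ℕ} (j : Fin m → ℕ) (s : Fin m → Fin n → L)
    (a : Fin m → L) (ha : ∀ i, a i ≠ 0) (v : AbsoluteValue L ℝ) :
    dj j s a v = 1 ∨ ((∀ i t, v (s i t) ≤ 1) ∧ ∀ i, v (a i) ≤ dj j s a v ^ (4 ^ j i)) := by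
  by_cases h0 : gjv j s a v = 0
  · left
    unfold dj
    rw [h0, neg_zero, Real.exp_zero]
  · right
    have hc : ∀ i t, v (s i t) ≤ 1 := by
      by_contra hc
      apply h0
      unfold gjv
      rw [if_neg hc]
    refine ⟨hc, fun i => ?_⟩
    have h1 := gjv_le j s a v i
    have h2 : 0 < gjv j s a v := lt_of_le_of_ne (gjv_nonneg j s a v) (Ne.symm h0)
    have h3 : (0 : ℝ) < 4 ^ j i * gjv j s a v := by positivity
    have hva : 0 < v (a i) := v.pos (ha i)
    have h4 : min 1 (v (a i)) = v (a i) := by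
      rcases le_total 1 (v (a i)) with h | h
      · rw [min_eq_left h, Real.log_one, neg_zero] at h1
        linarith
      · exact min_eq_right h
    rw [h4] at h1
    unfold dj
    rw [← Real.exp_nat_mul, ← Real.exp_log hva]
    refine Real.exp_le_exp.2 ?_
    push_cast
    linarith

theorem gs_log_dj {L : Type*} [Field L] [NumberField L] {m n : ℕ} (j : Fin m → ℕ)
    (s : Fin m → Fin n → L) (a : Fin m → L) (ha : ∀ i, a i ≠ 0) :
    FS (fun v : AbsoluteValue L ℝ => Real.log (dj j s a v)) ∧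
      gs (fun v : AbsoluteValue L ℝ => Real.log (dj j s a v)) = - gj j s a := by
  have e : (fun v : AbsoluteValue L ℝ => Real.log (dj j s a v)) =
      fun v : AbsoluteValue L ℝ => (-1 : ℝ) * gjv j s a v := by
    funext v
    rw [log_dj, neg_one_mul]
  rw [e]
  refine ⟨FS_const_mul (-1) (FS_gjv j s a ha), ?_⟩
  rw [gs_const_mul]
  unfold gj
  rw [neg_one_mul]

theorem gj_nonneg {L : Type*} [Field L] [NumberField L] {m n : ℕ} (j : Fin m → ℕ)
    (s : Fin m → Fin n → L) (a : Fin m → L) : 0 ≤ gj j s a :=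
  gs_nonneg fun v _ => gjv_nonneg j s a v

theorem gj_map {K L : Type*} [Field K] [NumberField K] [Field L] [NumberField L] [Algebra K L]
    {m n : ℕ} (j : Fin m → ℕ) (s : Fin m → Fin n → K) (a : Fin m → K) (ha : ∀ i, a i ≠ 0) :
    gj j (fun i t => algebraMap K L (s i t)) (fun i => algebraMap K L (a i)) =
      Module.finrank K L * gj j s a := by
  classical
  refine (gs_bc _ _ (FS_gjv j s a ha) (fun ψ => ?_) (fun v w n hn0 hvw => ?_)).2
  · unfold gjv
    simp only [A7_apply]
  · unfold gjv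
    simp only [hvw]
    have h1 : (∀ i t, v (s i t) ^ n ≤ 1) ↔ ∀ i t, v (s i t) ≤ 1 :=
      forall_congr' fun i => forall_congr' fun t =>
        pow_le_one_iff_of_nonneg (v.nonneg _) hn0.ne'
    have h2 : ∀ i, (- Real.log (min 1 (v (a i) ^ n))) / (4 : ℝ) ^ j i =
        n * ((- Real.log (min 1 (v (a i)))) / 4 ^ j i) := by
      intro i
      have h3 : min 1 (v (a i) ^ n) = (min 1 (v (a i))) ^ n := by
        rcases le_total 1 (v (a i)) with h | h
        · rw [min_eq_left h, min_eq_left (one_le_pow₀ h), one_pow]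
        · rw [min_eq_right h, min_eq_right (pow_le_one₀ (v.nonneg _) h)]
      rw [h3, Real.log_pow]
      ring
    by_cases h5 : ∀ i t, v (s i t) ≤ 1
    · rw [if_pos h5, if_pos (h1.2 h5), Real.mul_iInf_of_nonneg (Nat.cast_nonneg n)]
      exact iInf_congr h2
    · rw [if_neg h5, if_neg (fun h6 => h5 (h1.1 h6)), mul_zero]

/-- The joint gain is at most the height of each of the values. -/
theorem gj_le_ht {K : Type*} [Field K] [NumberField K] {m n : ℕ} (j : Fin m → ℕ)
    (s : Fin m → Fin n → K) (a : Fin m → K) (ha : ∀ i, a i ≠ 0) (i : Fin m) :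
    4 ^ j i * gj j s a ≤ logHeight₁ (a i) := by
  rw [← logHeight₁_inv (a i), ← gs_log_max]
  unfold gj
  rw [← gs_const_mul]
  refine gs_le (FS_const_mul _ (FS_gjv j s a ha)) (FS_log_max (a i)⁻¹) fun v _ => ?_
  refine (gjv_le j s a v i).trans (le_of_eq ?_)
  have h0 : 0 < v (a i) := v.pos (ha i)
  have h5 : max 1 (v (a i)⁻¹) = (min 1 (v (a i)))⁻¹ := by
    rw [map_inv₀]
    rcases le_total 1 (v (a i)) with h | h
    · rw [min_eq_left h, inv_one, max_eq_left (inv_le_one_of_one_le₀ h)]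
    · rw [min_eq_right h, max_eq_right ((one_le_inv₀ h0).2 h)]
  rw [h5, Real.log_inv]

end Pool.Agent.Lib.MP_17a322_nt.VDL
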