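import Pool.Agent.Lib.MP_17a322_nt.VDL.LC
import Pool.Agent.Lib.MP_17a322_nt.VN.L1l

/-!
The local estimate for the value of the auxiliary polynomial, all blocks at once.
-/

universe u

namespace Pool.Agent.Lib.MP_17a322_nt.VDL

open MvPolynomial Height
open Pool.Agent.Lib.MP_17a322_nt.RO
open Pool.Agent.Lib.MP_17a322_nt.VJ
open Pool.Agent.Lib.MP_17a322_nt.VN

/-- The factor of one block. -/
noncomputable def KJ {K L : Type*} [Field K] [Field L] [Algebra K L] (v : AbsoluteValue L ℝ)
    {k e : ℕ} (ρ : REP K (k + 1) e) (D : ℕ) (W : Fin (k + 1) → WeierstrassCurve K)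
    (j b : ℕ) (x0 q : Fin (k + 1) → L) : ℝ :=
  (∏ t, kc (W t) v) ^ (CF k D * (b * 4 ^ j)) *
    (cst v (e + 1) * (ρ.map (algebraMap K L)).RB v) ^ (2 * (CE k D * b)) *
    (∏ t, max 1 (v (x0 t))) ^ (2 * 4 ^ j) * (∏ t, max 1 (v (q t))) ^ b

section

variable {K L : Type*} [Field K] [Field L] [Algebra K L]

theorem Ex1_alg (j : ℕ) (a : L) : Ex1 L j (PowerSeries.C a) = PowerSeries.C a := by
  have h := (PowerSeries.expand (4 ^ j) (pow_ne_zero j four_ne_zero) :
    PowerSeries L →ₐ[L] PowerSeries L).commutes a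
  exact h

private theorem LD_alg (a : K) :
    algebraMap K (P2 L) a = PowerSeries.C (PowerSeries.C (algebraMap K L a)) := by
  rw [PowerSeries.algebraMap_apply, PowerSeries.algebraMap_apply]

/-- `f ↦ Ex1 j (f (z = 0))` as a homomorphism of `K`-algebras. -/
noncomputable def HE (K L : Type*) [Field K] [Field L] [Algebra K L] (j : ℕ) :
    P2 L →ₐ[K] PowerSeries L :=
  { (Ex1 L j).comp (PowerSeries.constantCoeff (R := PowerSeries L)) with
    commutes' := by
      intro a
      show Ex1 L j (PowerSeries.constantCoeff (algebraMap K (P2 L) a)) = _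
      rw [LD_alg, PowerSeries.constantCoeff_C, Ex1_alg, PowerSeries.algebraMap_apply] }

theorem HE_apply (j : ℕ) (f : P2 L) :
    HE K L j f = Ex1 L j (PowerSeries.constantCoeff f) := rfl

/-- `cc2` as a homomorphism of `K`-algebras. -/
private noncomputable def LD_cc (K L : Type*) [Field K] [Field L] [Algebra K L] :
    P2 L →ₐ[K] L :=
  { (PowerSeries.constantCoeff (R := L)).comp (PowerSeries.constantCoeff (R := PowerSeries L)) with
    commutes' := by
      intro a
      show PowerSeries.constantCoeff (PowerSeries.constantCoeff (algebraMap K (P2 L) a)) = _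
      rw [LD_alg, PowerSeries.constantCoeff_C, PowerSeries.constantCoeff_C] }

private theorem LD_map_col (W : WeierstrassCurve K) {A A' : Type*} [CommRing A] [CommRing A']
    [Algebra K A] [Algebra K A'] (f : A →ₐ[K] A') (R Q : Fin 2 → A) (B : A) (c : Bool)
    (i : Fin 2) :
    f (col W R Q B c i) = col W (fun j => f (R j)) (fun j => f (Q j)) (f B) c i := by
  unfold col
  cases c
  · fin_cases i
    · show f (2 * SV W R Q 0) = 2 * SV W _ _ 0
      rw [map_mul, map_SV, map_ofNat]
    · show f (SV W R Q 1 - B) = SV W _ _ 1 - f B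
      rw [map_sub, map_SV]
  · fin_cases i
    · show f (SV W R Q 1 + B) = SV W _ _ 1 + f B
      rw [map_add, map_SV]
    · show f (2 * SV W R Q 2) = 2 * SV W _ _ 2
      rw [map_mul, map_SV, map_ofNat]

private theorem LD_mu (W : WeierstrassCurve K) (j : ℕ) (x : L) :
    mu W j ![algebraMap L (PowerSeries L) x, 1] =
      fun i => algebraMap L (PowerSeries L) (mu W j ![x, 1] i) := by
  funext i
  have h := map_mu W (IsScalarTower.toAlgHom K L (PowerSeries L)) j ![x, 1] i
  have h2 : (fun k => (IsScalarTower.toAlgHom K L (PowerSeries L)) (![x, 1] k)) =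
      ![algebraMap L (PowerSeries L) x, 1] := by
    funext k
    fin_cases k
    · rfl
    · exact map_one _
  rw [h2] at h
  rw [← h]
  rfl

private theorem LD_vc (f : P2 L →ₐ[K] PowerSeries L) (χ : Bool) (u : P2 L) :
    (fun k => f (vc χ u k)) = vc χ (f u) := by
  funext k
  cases χ
  · fin_cases k
    · rfl
    · exact map_one f
  · fin_cases k
    · exact map_one f
    · rfl

/-- The size of `f (z = 0, T ^ (4 ^ j))`. -/
theorem PN_HE (v : AbsoluteValue L ℝ) {r κ : ℝ} (hr : 0 ≤ r) (hκ : 0 ≤ κ) (N j : ℕ) (f : P2 L) :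
    PN v r N (Ex1 L j (PowerSeries.constantCoeff f)) ≤ nu2 v (r ^ (4 ^ j)) κ N 0 f := by
  have h1 : PN v r N (Ex1 L j (PowerSeries.constantCoeff f)) ≤
      PN v (r ^ (4 ^ j)) N (PowerSeries.constantCoeff f) :=
    PN_expand v hr (pow_ne_zero j four_ne_zero) N _
  have h2 := PA_coeff_le (SN_PN v (pow_nonneg hr (4 ^ j)) N) hκ (le_refl 0) f
  rw [pow_zero, mul_one, PowerSeries.coeff_zero_eq_constantCoeff_apply] at h2
  exact h1.trans h2

end

/-- The local estimate. -/
theorem joint_local {K L : Type*} [Field K] [Field L] [Algebra K L] (v : AbsoluteValue L ℝ)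
    {k e m : ℕ} (ρ : Fin m → REP K (k + 1) e) {D : ℕ} (hD : ∀ i, (ρ i).Deg D)
    (W : Fin (k + 1) → WeierstrassCurve K) [∀ t, (W t).IsElliptic] (χ : Fin (k + 1) → Bool)
    {j b : Fin m → ℕ} {T : ℕ} (hb : ∀ i, 1 ≤ b i) (x0 : Fin (k + 1) → L)
    (σ q : Fin m × Fin (k + 1) → L) (u ξ : Fin m × Fin (k + 1) → P2 L) {rho : Fin m → ℝ}
    (hrho : ∀ i, 0 ≤ rho i) (hM0 : ∀ i t, mu (W t) (j i) ![x0 t, 1] ≠ 0)
    (hcu : ∀ p, cc2 (u p) = σ p)
    (hP : ∀ i t, PKG (W t) v (χ t) (mu (W t) (j i) ![x0 t, 1]) (σ (i, t)) (q (i, t)) (u (i, t))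
      (ξ (i, t)) (rho i))
    (Φ : (Fin m → Fin (k + 1) → ℕ) → PowerSeries L) (hO : ORJ ρ W χ j b T Φ x0) {r : ℝ}
    (hr0 : 0 ≤ r) (N : ℕ) {Bd : ℝ} (hBd : ∀ μ ∈ BB (fun i => b i + 1), PN v r N (Φ μ) ≤ Bd)
    {del : ℝ} (hdel0 : 0 < del) (hdel1 : del ≤ 1)
    (hdel : del = 1 ∨ ((∀ p, v (σ p) ≤ 1) ∧
      ∀ i, v (aeval (fun t => σ (i, t)) ((ρ i).z 0)) ≤ del ^ (4 ^ j i)))
    (hr : ∀ i, r ^ (4 ^ j i) * ((∏ t, kc (W t) v) ^ 200 * ∏ t, max 1 (v (q (i, t)))) ≤
      del ^ (4 ^ j i) * rho i) :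
    PN v r N (∑ μ ∈ BB (fun i => b i + 1),
      Φ μ * ∏ i, ∏ t, Ex1 L (j i) (PowerSeries.constantCoeff (ξ (i, t))) ^ μ i t) ≤
      Bd * (∏ i, KJ v (ρ i) D W (j i) (b i) x0 fun t => q (i, t)) * del ^ T := by
  classical
  -- the constants
  obtain ⟨kp, hkp⟩ : ∃ kp : ℝ, kp = ∏ t, kc (W t) v := ⟨_, rfl⟩
  obtain ⟨X, hX⟩ : ∃ X : Fin m → ℝ, X = fun i => ∏ t, max 1 (v (q (i, t))) := ⟨_, rfl⟩
  obtain ⟨Y, hY⟩ : ∃ Y : ℝ, Y = ∏ t, max 1 (v (x0 t)) := ⟨_, rfl⟩
  obtain ⟨RB, hRB⟩ : ∃ RB : Fin m → ℝ, RB = fun i => ((ρ i).map (algebraMap K L)).RB v := ⟨_, rfl⟩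
  obtain ⟨Z, hZ⟩ : ∃ Z : ℝ, Z = cst v (e + 1) := ⟨_, rfl⟩
  obtain ⟨kk, hkk⟩ : ∃ kk : ℝ, kk = kp ^ 200 := ⟨_, rfl⟩
  have hkc : ∀ t, 1 ≤ kc (W t) v := fun t => by
    unfold kc
    exact one_le_mul_of_one_le_of_one_le (one_le_lc _ v) (le_max_left _ _)
  have hlk : ∀ t, lc (W t) v ≤ kc (W t) v := fun t => by
    unfold kc
    exact le_mul_of_one_le_right (zero_le_one.trans (one_le_lc _ v)) (le_max_left _ _)
  have hX1 : ∀ i, 1 ≤ X i := fun i => by
    rw [hX]
    exact E1_one_le_prod _ _ fun _ => le_max_left _ _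
  have hX0 : ∀ i, 0 < X i := fun i => zero_lt_one.trans_le (hX1 i)
  have hY1 : 1 ≤ Y := by rw [hY]; exact E1_one_le_prod _ _ fun _ => le_max_left _ _
  have hkp1 : 1 ≤ kp := by rw [hkp]; exact E1_one_le_prod _ _ hkc
  have hkk1 : 1 ≤ kk := by rw [hkk]; exact one_le_pow₀ hkp1
  have hRB1 : ∀ i, 1 ≤ RB i := fun i => by rw [hRB]; exact one_le_RB _ v
  have hRB0 : ∀ i, 0 ≤ RB i := fun i => zero_le_one.trans (hRB1 i)
  have hZ1 : 1 ≤ Z := by rw [hZ]; exact one_le_cst v (Nat.le_add_left _ _)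
  have hkct : ∀ t, kc (W t) v ≤ kp := fun t => by
    rw [hkp]; exact E1_le_prod Finset.univ (fun t => kc (W t) v) hkc (Finset.mem_univ t)
  have hkct2 : ∀ t, kc (W t) v ^ 200 ≤ kk := fun t => by
    rw [hkk]; exact pow_le_pow_left₀ (zero_le_one.trans (hkc t)) (hkct t) 200
  have hkkp : kp ≤ kk := by rw [hkk]; exact le_self_pow₀ hkp1 (by norm_num)
  have hXt : ∀ i t, max 1 (v (q (i, t))) ≤ X i := fun i t => by
    rw [hX]
    exact E1_le_prod Finset.univ (fun t => max 1 (v (q (i, t)))) (fun _ => le_max_left _ _)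
      (Finset.mem_univ t)
  have hXt1 : ∀ i t, 1 ≤ max 1 (v (q (i, t))) := fun i t => le_max_left _ _
  have hc2 : cst v 2 ≤ kp := (cst_two_le_lc (W 0) v).trans ((hlk 0).trans (hkct 0))
  have hc20 : 0 ≤ cst v 2 := cst_nonneg v 2
  have hc21 : 1 ≤ cst v 2 := one_le_cst v (by norm_num)
  have hkkX : ∀ i, 0 < kk * X i := fun i => mul_pos (by linarith) (hX0 i)
  have hdp0 : ∀ i, 0 < del ^ (4 ^ j i) := fun i => pow_pos hdel0 _
  have hdp1 : ∀ i, del ^ (4 ^ j i) ≤ 1 := fun i => pow_le_one₀ hdel0.le hdel1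
  have hr' : ∀ i, r ^ (4 ^ j i) * (kk * X i) ≤ del ^ (4 ^ j i) * rho i := by
    intro i
    rw [hkk, hkp, hX]
    exact hr i
  have hBd0 : 0 ≤ Bd := BB_nonneg (fun a => (SN_PN v hr0 N).nonneg a) Φ hBd
  obtain ⟨SM, hSM⟩ : ∃ SM : PowerSeries L, SM = ∑ μ ∈ BB (fun i => b i + 1),
      Φ μ * ∏ i, ∏ t, Ex1 L (j i) (PowerSeries.constantCoeff (ξ (i, t))) ^ μ i t := ⟨_, rfl⟩
  rw [← hSM]
  have h4j : ∀ i, 1 ≤ 4 ^ j i := fun i => Nat.one_le_pow _ _ (by norm_num)
  have hb4 : ∀ i, b i ≤ b i * 4 ^ j i := fun i => Nat.le_mul_of_pos_right (b i) (by positivity)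
  have hSN := SN_PN v hr0 N
  -- comparison of radii
  have hrad : ∀ (i : Fin m) (lam' : ℝ), 0 < lam' → r ^ (4 ^ j i) ≤ lam' * rho i →
      ∀ f : P2 L, PN v r N (Ex1 L (j i) (PowerSeries.constantCoeff f)) ≤
        nu2 v (lam' * rho i) lam' N 0 f := by
    intro i lam' hl0 hl f
    refine (PN_HE v hr0 hl0.le N (j i) f).trans ?_
    exact PA2_mono v (pow_nonneg hr0 _) hl hl0.le le_rfl N 0 f
  by_cases hcase : del = 1
  · -- case 1
    have hdT : del ^ T = 1 := by rw [hcase, one_pow]
    rw [hdT, mul_one]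
    have hxi : ∀ i t, PN v r N (Ex1 L (j i) (PowerSeries.constantCoeff (ξ (i, t)))) ≤
        kc (W t) v ^ 200 * max 1 (v (q (i, t))) := by
      intro i t
      obtain ⟨lam, hlam⟩ : ∃ lam : ℝ, lam = 1 / (kk * X i) := ⟨_, rfl⟩
      have hlam0 : 0 < lam := by rw [hlam]; exact div_pos one_pos (hkkX i)
      have hlamk : lam * (kk * X i) = 1 := by rw [hlam]; exact div_mul_cancel₀ 1 (hkkX i).ne'
      have hlamt : lam * (kc (W t) v ^ 200 * max 1 (v (q (i, t)))) ≤ 1 := by
        refine le_of_le_of_eq ?_ hlamk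
        apply mul_le_mul_of_nonneg_left _ hlam0.le
        exact mul_le_mul (hkct2 t) (hXt i t) (zero_le_one.trans (hXt1 i t)) (by linarith)
      have hrl : r ^ (4 ^ j i) ≤ lam * rho i := by
        have h1 : r ^ (4 ^ j i) * (kk * X i) ≤ rho i := by
          refine (hr' i).trans ?_
          exact mul_le_of_le_one_left (hrho i) (hdp1 i)
        have h2 := mul_le_mul_of_nonneg_left h1 hlam0.le
        calc r ^ (4 ^ j i) = lam * (r ^ (4 ^ j i) * (kk * X i)) := by
              rw [mul_left_comm, hlamk, mul_one]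
          _ ≤ _ := h2
      exact (hrad i lam hlam0 hrl _).trans (((hP i t).2 lam hlam0.le hlamt).1 N 0)
    have h1 := joint_none hSN b Φ
      (fun i t => Ex1 L (j i) (PowerSeries.constantCoeff (ξ (i, t)))) hBd
    rw [← hSM] at h1
    refine h1.trans (mul_le_mul_of_nonneg_left ?_ hBd0)
    refine Finset.prod_le_prod (fun i _ => ?_) fun i _ => ?_
    · exact mul_nonneg (pow_nonneg hc20 _) (Finset.prod_nonneg fun t _ => by positivity)
    · unfold KJ
      rw [← hkp, ← hY, ← hZ]
      have e1 : ((ρ i).map (algebraMap K L)).RB v = RB i := by rw [hRB]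
      have e2 : ∏ t, max 1 (v (q (i, t))) = X i := by rw [hX]
      rw [e1, e2]
      have h2 : ∏ t, max 1 (PN v r N (Ex1 L (j i) (PowerSeries.constantCoeff (ξ (i, t))))) ^ b i ≤
          kk ^ b i * X i ^ b i := by
        have h3 : ∏ t, max 1 (PN v r N
            (Ex1 L (j i) (PowerSeries.constantCoeff (ξ (i, t))))) ^ b i ≤
            ∏ t, (kc (W t) v ^ 200 * max 1 (v (q (i, t)))) ^ b i := by
          refine Finset.prod_le_prod (fun t _ => by positivity) fun t _ => ?_
          refine pow_le_pow_left₀ (by positivity) (max_le ?_ (hxi i t)) (b i)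
          exact one_le_mul_of_one_le_of_one_le (one_le_pow₀ (hkc t)) (hXt1 i t)
        refine h3.trans (le_of_eq ?_)
        rw [Finset.prod_pow, Finset.prod_mul_distrib, Finset.prod_pow, mul_pow, ← hkp, e2, hkk]
      have h6 : cst v 2 ^ ((k + 1) * b i) ≤ kp ^ ((k + 1) * b i) := pow_le_pow_left₀ hc20 hc2 _
      have h7 : cst v 2 ^ ((k + 1) * b i) * ∏ t, max 1 (PN v r N
          (Ex1 L (j i) (PowerSeries.constantCoeff (ξ (i, t))))) ^ b i ≤
          kp ^ ((k + 1) * b i) * (kk ^ b i * X i ^ b i) :=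
        mul_le_mul h6 h2 (Finset.prod_nonneg fun t _ => by positivity) (by positivity)
      refine h7.trans ?_
      have h8 : kp ^ ((k + 1) * b i) * kk ^ b i ≤ kp ^ (CF k D * (b i * 4 ^ j i)) := by
        rw [hkk, ← pow_mul, ← pow_add]
        refine pow_le_pow_right₀ hkp1 ?_
        have h9 : 200 * (200 * (k + 2)) ≤ CF k D := by
          unfold CF
          exact Nat.mul_le_mul_left _ (Nat.le_add_right _ _)
        calc (k + 1) * b i + 200 * b i = (k + 1 + 200) * b i := by ring
          _ ≤ (200 * (200 * (k + 2))) * b i := Nat.mul_le_mul_right _ (by omega)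
          _ ≤ CF k D * (b i * 4 ^ j i) := Nat.mul_le_mul h9 (hb4 i)
      have h10 : 1 ≤ (Z * RB i) ^ (2 * (CE k D * b i)) :=
        one_le_pow₀ (one_le_mul_of_one_le_of_one_le hZ1 (hRB1 i))
      have h11 : 1 ≤ Y ^ (2 * 4 ^ j i) := one_le_pow₀ hY1
      have hXb : 0 ≤ X i ^ b i := pow_nonneg (hX0 i).le _
      calc kp ^ ((k + 1) * b i) * (kk ^ b i * X i ^ b i) =
          (kp ^ ((k + 1) * b i) * kk ^ b i) * X i ^ b i := by ring
        _ ≤ kp ^ (CF k D * (b i * 4 ^ j i)) * X i ^ b i := mul_le_mul_of_nonneg_right h8 hXb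
        _ = kp ^ (CF k D * (b i * 4 ^ j i)) * 1 * 1 * X i ^ b i := by ring
        _ ≤ _ := by
          refine mul_le_mul_of_nonneg_right (mul_le_mul (mul_le_mul_of_nonneg_left h10 ?_) h11
            zero_le_one ?_) hXb
          · positivity
          · have := hRB0 i
            have hZ0 : 0 ≤ Z := zero_le_one.trans hZ1
            positivity
  · -- case 2
    obtain ⟨hσ1, hz0⟩ := hdel.resolve_left hcase
    obtain ⟨lam, hlam⟩ : ∃ lam : Fin m → ℝ, lam = fun i => del ^ (4 ^ j i) / (kk * X i) := ⟨_, rfl⟩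
    have hlam0 : ∀ i, 0 < lam i := fun i => by rw [hlam]; exact div_pos (hdp0 i) (hkkX i)
    have hlamk : ∀ i, lam i * (kk * X i) = del ^ (4 ^ j i) := fun i => by
      rw [hlam]
      exact div_mul_cancel₀ _ (hkkX i).ne'
    have hlamt : ∀ i t, lam i * (kc (W t) v ^ 200 * max 1 (v (q (i, t)))) ≤ 1 := by
      intro i t
      refine le_trans ?_ (hdp1 i)
      refine le_of_le_of_eq ?_ (hlamk i)
      apply mul_le_mul_of_nonneg_left _ (hlam0 i).le
      exact mul_le_mul (hkct2 t) (hXt i t) (zero_le_one.trans (hXt1 i t)) (by linarith)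
    have hlamt' : ∀ i t, lam i * kc (W t) v ^ 200 ≤ 1 := by
      intro i t
      refine le_trans ?_ (hlamt i t)
      apply mul_le_mul_of_nonneg_left _ (hlam0 i).le
      exact le_mul_of_one_le_right (by have := hkc t; positivity) (hXt1 i t)
    have hrl : ∀ i, r ^ (4 ^ j i) ≤ lam i * rho i := by
      intro i
      rw [hlam]
      show _ ≤ del ^ (4 ^ j i) / (kk * X i) * rho i
      rw [div_mul_eq_mul_div, le_div_iff₀ (hkkX i)]
      exact hr' i
    have hex : ∀ i t, ∃ (c : Bool) (B d : P2 L),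
        B ^ 2 = ph (W t) (M2 (mu (W t) (j i) ![x0 t, 1])) * ph (W t) (vc (χ t) (u (i, t))) ∧
        col (W t) (M2 (mu (W t) (j i) ![x0 t, 1])) (vc (χ t) (u (i, t))) B c 1 * d = 1 ∧
        col (W t) (M2 (mu (W t) (j i) ![x0 t, 1])) (vc (χ t) (u (i, t))) B c 0 * d = ξ (i, t) ∧
        ∀ n n', nu2 v (lam i * rho i) (lam i) n n' B ≤
            kc (W t) v ^ 200 * vn v (mu (W t) (j i) ![x0 t, 1]) ^ 2 ∧
          nu2 v (lam i * rho i) (lam i) n n' d ≤
            kc (W t) v ^ 200 * max 1 (v (q (i, t))) / vn v (mu (W t) (j i) ![x0 t, 1]) ^ 2 :=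
      fun i t => ((hP i t).2 (lam i) (hlam0 i).le (hlamt i t)).2 (hσ1 (i, t))
    choose c B d hB hd hξ hsz using hex
    have hvn0 : ∀ i t, 0 < vn v (mu (W t) (j i) ![x0 t, 1]) := by
      intro i t
      rcases lt_or_eq_of_le (show 0 ≤ vn v (mu (W t) (j i) ![x0 t, 1]) from
        le_max_of_le_left (v.nonneg _)) with h | h
      · exact h
      · exfalso
        apply hM0 i t
        have h1 : v (mu (W t) (j i) ![x0 t, 1] 0) ≤ 0 := by
          rw [h]; exact le_max_left _ _
        have h2 : v (mu (W t) (j i) ![x0 t, 1] 1) ≤ 0 := by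
          rw [h]; exact le_max_right _ _
        funext a
        fin_cases a
        · exact v.eq_zero.mp (le_antisymm h1 (v.nonneg _))
        · exact v.eq_zero.mp (le_antisymm h2 (v.nonneg _))
    -- the substitution
    have hHM : ∀ i t, (fun a => HE K L (j i) (M2 (mu (W t) (j i) ![x0 t, 1]) a)) =
        mu (W t) (j i) ![algebraMap L (PowerSeries L) (x0 t), 1] := by
      intro i t
      rw [LD_mu]
      funext a
      rw [HE_apply]
      unfold M2
      rw [PowerSeries.constantCoeff_C, Ex1_alg]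
      rfl
    have hB' : ∀ i t, HE K L (j i) (B i t) ^ 2 =
        ph (W t) (mu (W t) (j i) ![algebraMap L (PowerSeries L) (x0 t), 1]) *
          ph (W t) (vc (χ t) (HE K L (j i) (u (i, t)))) := by
      intro i t
      have h := congrArg (HE K L (j i)) (hB i t)
      rw [map_pow, map_mul, map_ph, map_ph, hHM, LD_vc] at h
      exact h
    have hcol : ∀ i t a, HE K L (j i) (col (W t) (M2 (mu (W t) (j i) ![x0 t, 1]))
        (vc (χ t) (u (i, t))) (B i t) (c i t) a) =
        col (W t) (mu (W t) (j i) ![algebraMap L (PowerSeries L) (x0 t), 1])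
          (vc (χ t) (HE K L (j i) (u (i, t)))) (HE K L (j i) (B i t)) (c i t) a := by
      intro i t a
      rw [LD_map_col, hHM, LD_vc]
    have hd' : ∀ i t, col (W t) (mu (W t) (j i) ![algebraMap L (PowerSeries L) (x0 t), 1])
        (vc (χ t) (HE K L (j i) (u (i, t)))) (HE K L (j i) (B i t)) (c i t) 1 *
          HE K L (j i) (d i t) = 1 := by
      intro i t
      have h := congrArg (HE K L (j i)) (hd i t)
      rw [map_mul, hcol, map_one] at h
      exact h
    have hξ' : ∀ i t, col (W t) (mu (W t) (j i) ![algebraMap L (PowerSeries L) (x0 t), 1])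
        (vc (χ t) (HE K L (j i) (u (i, t)))) (HE K L (j i) (B i t)) (c i t) 0 *
          HE K L (j i) (d i t) = Ex1 L (j i) (PowerSeries.constantCoeff (ξ (i, t))) := by
      intro i t
      have h := congrArg (HE K L (j i)) (hξ i t)
      rw [map_mul, hcol, HE_apply (j i) (ξ (i, t))] at h
      exact h
    have hνle : ∀ i (f : P2 L), PN v r N (HE K L (j i) f) ≤ nu2 v (lam i * rho i) (lam i) N 0 f :=
      fun i f => hrad i (lam i) (hlam0 i) (hrl i) f
    have hrk : ∀ i t, lam i * rho i * kc (W t) v ^ 200 ≤ rho i := by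
      intro i t
      calc lam i * rho i * kc (W t) v ^ 200 = lam i * kc (W t) v ^ 200 * rho i := by ring
        _ ≤ 1 * rho i := mul_le_mul_of_nonneg_right (hlamt' i t) (hrho i)
        _ = rho i := one_mul _
    have hu' : ∀ i t, PN v r N (HE K L (j i) (u (i, t))) ≤ kk := by
      intro i t
      refine (hνle i _).trans (le_trans ?_ (hkct2 t))
      exact (hP i t).1 (hσ1 (i, t)) (lam i * rho i) (lam i)
        (mul_nonneg (hlam0 i).le (hrho i)) (hrk i t) (hlam0 i).le (hlamt' i t) N 0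
    -- the values of the centre
    have hz : ∀ (i : Fin m) (z : MvPolynomial (Fin (k + 1)) K), z.totalDegree ≤ D →
        NV v (MvPolynomial.map (algebraMap K L) z) ≤ RB i →
        v (aeval (fun t => σ (i, t)) z) ≤ del ^ (4 ^ j i) →
        PN v r N (aeval (fun t => HE K L (j i) (u (i, t))) z) ≤
          (cst v 2 * RB i * kk ^ D) * del ^ (4 ^ j i) := by
      intro i z hzD hzR hzv
      obtain ⟨dl, hdl⟩ : ∃ dl : ℝ, dl = del ^ (4 ^ j i) := ⟨_, rfl⟩
      rw [← hdl] at hzv ⊢
      have hdl0 : 0 < dl := by rw [hdl]; exact hdp0 i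
      have hdl1 : dl ≤ 1 := by rw [hdl]; exact hdp1 i
      obtain ⟨f, hf⟩ : ∃ f : P2 L, f = aeval (fun t => u (i, t)) z := ⟨_, rfl⟩
      have h1 : aeval (fun t => HE K L (j i) (u (i, t))) z = HE K L (j i) f := by
        have h2 := MvPolynomial.comp_aeval_apply (fun t => u (i, t)) (HE K L (j i)) z
        rw [hf]
        exact h2.symm
      have h2 : cc2 f = aeval (fun t => σ (i, t)) z := by
        have h3 := MvPolynomial.comp_aeval_apply (fun t => u (i, t)) (LD_cc K L) z
        rw [hf]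
        refine Eq.trans h3 ?_
        congr 2
        funext t
        exact hcu (i, t)
      have hrk0 : 0 ≤ rho i / kk := div_nonneg (hrho i) (by linarith)
      have hκ0 : 0 ≤ 1 / kk := div_nonneg zero_le_one (by linarith)
      have h3 : nu2 v (rho i / kk) (1 / kk) N 0 f ≤ RB i * kk ^ D := by
        have hSN2 := SN_PA (SN_PN v hrk0 N) hκ0 0
        have h4 := hSN2.aeval_le' z (fun _ => D)
          (fun t => (degreeOf_le_totalDegree z t).trans hzD) (fun t => u (i, t))
        rw [hf]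
        refine h4.trans ?_
        have h5 : ∏ t, max 1 (PA v (fun g : PowerSeries L => PN v (rho i / kk) N g) (1 / kk) 0
            (u (i, t))) ^ D ≤ kk ^ D := by
          have h6 : ∏ t, max 1 (PA v (fun g : PowerSeries L => PN v (rho i / kk) N g) (1 / kk) 0
              (u (i, t))) ^ D ≤ ∏ t, (kc (W t) v ^ 200) ^ D := by
            refine Finset.prod_le_prod (fun t _ => by positivity) fun t _ => ?_
            refine pow_le_pow_left₀ (by positivity) (max_le (one_le_pow₀ (hkc t)) ?_) D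
            refine (hP i t).1 (hσ1 (i, t)) _ _ hrk0 ?_ hκ0 ?_ N 0
            · rw [div_mul_eq_mul_div, div_le_iff₀ (by linarith)]
              exact mul_le_mul_of_nonneg_left (hkct2 t) (hrho i)
            · rw [div_mul_eq_mul_div, one_mul, div_le_iff₀ (by linarith), one_mul]
              exact hkct2 t
          refine h6.trans (le_of_eq ?_)
          rw [Finset.prod_pow, Finset.prod_pow, ← hkp, hkk]
        exact mul_le_mul hzR h5 (Finset.prod_nonneg fun t _ => by positivity) (hRB0 i)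
      obtain ⟨l, hl⟩ : ∃ l : ℝ, l = dl / X i := ⟨_, rfl⟩
      have hl0 : 0 ≤ l := by rw [hl]; exact div_nonneg hdl0.le (hX0 i).le
      have hldl : l ≤ dl := by rw [hl]; exact div_le_self hdl0.le (hX1 i)
      have hl1 : l ≤ 1 := hldl.trans hdl1
      have hlami : lam i = dl / (kk * X i) := by rw [hlam, hdl]
      have hkkne : kk ≠ 0 := (by linarith : (0 : ℝ) < kk).ne'
      have hXne : X i ≠ 0 := (hX0 i).ne'
      have e1 : l * (rho i / kk) = lam i * rho i := by
        rw [hl, hlami]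
        field_simp
      have e2 : l * (1 / kk) = lam i := by
        rw [hl, hlami]
        field_simp
      have h5 : nu2 v (lam i * rho i) (lam i) N 0 (f - PowerSeries.C (PowerSeries.C (cc2 f))) ≤
          dl * (RB i * kk ^ D) := by
        have h6 := PA2_scale v hrk0 hκ0 hl0 hl1 N 0
          (f - PowerSeries.C (PowerSeries.C (cc2 f))) (by
            unfold cc2
            rw [map_sub, map_sub, PowerSeries.constantCoeff_C, PowerSeries.constantCoeff_C,
              sub_self])
        rw [e1, e2] at h6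
        refine h6.trans ?_
        have h7 := (PA2_sub_const v hrk0 hκ0 N 0 f).trans h3
        have h8 : 0 ≤ RB i * kk ^ D := mul_nonneg (hRB0 i) (by positivity)
        exact (mul_le_mul_of_nonneg_left h7 hl0).trans (mul_le_mul_of_nonneg_right hldl h8)
      have hlr0 : 0 ≤ lam i * rho i := mul_nonneg (hlam0 i).le (hrho i)
      have hSN3 := SN_PA (SN_PN v hlr0 N) (hlam0 i).le 0
      have h6 : nu2 v (lam i * rho i) (lam i) N 0 (PowerSeries.C (PowerSeries.C (cc2 f))) ≤
          dl * (RB i * kk ^ D) := by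
        unfold nu2
        rw [PA_C (SN_PN v hlr0 N), PN_C, h2]
        refine hzv.trans ?_
        exact le_mul_of_one_le_right hdl0.le
          (one_le_mul_of_one_le_of_one_le (hRB1 i) (one_le_pow₀ hkk1))
      have h7 := hSN3.add_le_cst h5 h6
      rw [sub_add_cancel] at h7
      rw [h1]
      refine (hνle i f).trans (h7.trans (le_of_eq ?_))
      ring
    have hκ1 : ∀ i, 1 ≤ cst v 2 * RB i * kk ^ D := fun i =>
      one_le_mul_of_one_le_of_one_le (one_le_mul_of_one_le_of_one_le hc21 (hRB1 i))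
        (one_le_pow₀ hkk1)
    have hmain := joint_gain hSN ρ hD W χ hb Φ x0 hO
      hBd hκ1 hdel0 hdel1 hkk1 (fun t => (hlk t).trans ((hkct t).trans hkkp))
      (fun i t => by
        have h1 := le_mu (W t) v (j i) ![x0 t, 1]
        have h2 : vn v ![x0 t, 1] = max 1 (v (x0 t)) := by
          unfold vn
          show max (v (x0 t)) (v 1) = _
          rw [map_one, max_comm]
        rw [h2] at h1
        refine h1.trans ?_
        apply mul_le_mul_of_nonneg_right _ (hvn0 i t).le
        exact pow_le_pow_left₀ (zero_le_one.trans (one_le_lc _ v))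
          ((hlk t).trans ((hkct t).trans hkkp)) _)
      hvn0 (fun i t => HE K L (j i) (u (i, t)))
      (fun i t => Ex1 L (j i) (PowerSeries.constantCoeff (ξ (i, t)))) c
      (fun i t => HE K L (j i) (B i t)) (fun i t => HE K L (j i) (d i t))
      (fun i t => max 1 (v (q (i, t)))) hXt1 hB' hd' hξ' hu'
      (fun i t => (hνle i _).trans (((hsz i t N 0).1).trans
        (mul_le_mul_of_nonneg_right (hkct2 t) (pow_nonneg (hvn0 i t).le _))))
      (fun i t => (hνle i _).trans (((hsz i t N 0).2).trans (by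
        apply div_le_div_of_nonneg_right _ (pow_nonneg (hvn0 i t).le _)
        exact mul_le_mul_of_nonneg_right (hkct2 t) (zero_le_one.trans (hXt1 i t)))))
      (fun i => hz i _ ((hD i).1 0) (by rw [hRB]; exact z_le_RB ((ρ i).map (algebraMap K L)) v 0)
        (hz0 i))
    rw [← hSM] at hmain
    refine hmain.trans (mul_le_mul_of_nonneg_right (mul_le_mul_of_nonneg_left ?_ hBd0)
      (pow_nonneg hdel0.le _))
    refine Finset.prod_le_prod (fun i _ => ?_) fun i _ => ?_
    · have h1 := hRB0 i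
      have h2 : 0 ≤ ((ρ i).map (algebraMap K L)).RB v := by
        rw [hRB] at h1
        exact h1
      have h3 := cst_nonneg v (e + 1)
      have h4 : 0 ≤ kk := by linarith
      have h5 := zero_le_one.trans (hκ1 i)
      have h6 : 0 ≤ ∏ t, max 1 (v (q (i, t))) := Finset.prod_nonneg fun t _ => by positivity
      have h7 : 0 ≤ ∏ t, max 1 (v (x0 t)) := Finset.prod_nonneg fun t _ => by positivity
      exact mul_nonneg (mul_nonneg (mul_nonneg (pow_nonneg h4 _)
        (pow_nonneg (mul_nonneg (mul_nonneg h3 h2) h5) _)) (pow_nonneg h7 _)) (pow_nonneg h6 _)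
    · unfold KJ
      rw [← hkp, ← hY, ← hZ]
      have e1 : ((ρ i).map (algebraMap K L)).RB v = RB i := by rw [hRB]
      have e2 : ∏ t, max 1 (v (q (i, t))) = X i := by rw [hX]
      rw [e1, e2]
      have hZ0 : 0 ≤ Z := zero_le_one.trans hZ1
      have hkk0 : 0 ≤ kk := by linarith
      have hkp0 : 0 ≤ kp := by linarith
      have hY0 : 0 ≤ Y := by linarith
      have hR0 := hRB0 i
      have hX00 := (hX0 i).le
      have h7 : (Z * RB i * (cst v 2 * RB i * kk ^ D)) ^ (CE k D * b i) ≤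
          (Z * RB i) ^ (2 * (CE k D * b i)) * kk ^ ((D + 1) * (CE k D * b i)) := by
        have h8 : Z * RB i * (cst v 2 * RB i * kk ^ D) ≤ (Z * RB i) ^ 2 * kk ^ (D + 1) := by
          have h9 : cst v 2 * RB i * kk ^ D ≤ Z * RB i * kk ^ (D + 1) := by
            have h10 : cst v 2 ≤ Z * kk := by
              calc cst v 2 ≤ kk := hc2.trans hkkp
                _ = 1 * kk := (one_mul _).symm
                _ ≤ Z * kk := mul_le_mul_of_nonneg_right hZ1 hkk0
            calc cst v 2 * RB i * kk ^ D = cst v 2 * (RB i * kk ^ D) := by ring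
              _ ≤ Z * kk * (RB i * kk ^ D) := mul_le_mul_of_nonneg_right h10 (by positivity)
              _ = Z * RB i * kk ^ (D + 1) := by ring
          calc Z * RB i * (cst v 2 * RB i * kk ^ D) ≤ Z * RB i * (Z * RB i * kk ^ (D + 1)) :=
                mul_le_mul_of_nonneg_left h9 (by positivity)
            _ = _ := by ring
        have h9 : 0 ≤ Z * RB i * (cst v 2 * RB i * kk ^ D) := by positivity
        refine (pow_le_pow_left₀ h9 h8 _).trans (le_of_eq ?_)
        rw [mul_pow, ← pow_mul, ← pow_mul]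
      have h8 : kk ^ ((200 * (k + 1) + 2 * CE k D) * (b i * 4 ^ j i)) *
          kk ^ ((D + 1) * (CE k D * b i)) ≤ kp ^ (CF k D * (b i * 4 ^ j i)) := by
        rw [hkk, ← pow_mul, ← pow_mul, ← pow_add]
        refine pow_le_pow_right₀ hkp1 ?_
        have h9 : (D + 1) * (CE k D * b i) ≤ (D + 1) * CE k D * (b i * 4 ^ j i) := by
          rw [mul_assoc]
          exact Nat.mul_le_mul_left _ (Nat.mul_le_mul_left _ (hb4 i))
        have h10 : (200 * (k + 1) + 2 * CE k D) + (D + 1) * CE k D ≤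
            200 * (k + 2) + ((k + 2) * D + 4) * CE k D := by
          have h11 : 2 * CE k D + (D + 1) * CE k D = (D + 3) * CE k D := by ring
          have h12 : (D + 3) * CE k D ≤ ((k + 2) * D + 4) * CE k D := by
            apply Nat.mul_le_mul_right
            have : D ≤ (k + 2) * D := Nat.le_mul_of_pos_left D (by omega)
            omega
          omega
        calc 200 * ((200 * (k + 1) + 2 * CE k D) * (b i * 4 ^ j i)) +
              200 * ((D + 1) * (CE k D * b i)) ≤
            200 * ((200 * (k + 1) + 2 * CE k D) * (b i * 4 ^ j i)) +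
              200 * ((D + 1) * CE k D * (b i * 4 ^ j i)) :=
                Nat.add_le_add_left (Nat.mul_le_mul_left _ h9) _
          _ = 200 * (((200 * (k + 1) + 2 * CE k D) + (D + 1) * CE k D)) * (b i * 4 ^ j i) := by
                ring
          _ ≤ 200 * (200 * (k + 2) + ((k + 2) * D + 4) * CE k D) * (b i * 4 ^ j i) :=
                Nat.mul_le_mul_right _ (Nat.mul_le_mul_left _ h10)
          _ = CF k D * (b i * 4 ^ j i) := rfl
      calc kk ^ ((200 * (k + 1) + 2 * CE k D) * (b i * 4 ^ j i)) *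
            (Z * RB i * (cst v 2 * RB i * kk ^ D)) ^ (CE k D * b i) * Y ^ (2 * 4 ^ j i) *
            X i ^ b i ≤
          kk ^ ((200 * (k + 1) + 2 * CE k D) * (b i * 4 ^ j i)) *
            ((Z * RB i) ^ (2 * (CE k D * b i)) * kk ^ ((D + 1) * (CE k D * b i))) *
              Y ^ (2 * 4 ^ j i) * X i ^ b i := by
            gcongr
        _ = (kk ^ ((200 * (k + 1) + 2 * CE k D) * (b i * 4 ^ j i)) *
            kk ^ ((D + 1) * (CE k D * b i))) * (Z * RB i) ^ (2 * (CE k D * b i)) *
              Y ^ (2 * 4 ^ j i) * X i ^ b i := by ring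
        _ ≤ _ := by gcongr

end Pool.Agent.Lib.MP_17a322_nt.VDL
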