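import Pool.Agent.Lib.MP_17a322_nt.VDL.LE
import Pool.Agent.Lib.MP_17a322_nt.VN.L1u0
import Pool.Agent.Lib.MP_17a322_nt.VN.LInt

/-!
The value of the auxiliary polynomial at the joint point; the radius; the bound of the joint gain.
-/

universe u

namespace Pool.Agent.Lib.MP_17a322_nt.VDL

open MvPolynomial Height
open Pool.Agent.Lib.MP_17a322_nt.RO
open Pool.Agent.Lib.MP_17a322_nt.VJ
open Pool.Agent.Lib.MP_17a322_nt.VN

/-- The value of the auxiliary polynomial. -/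
theorem NF_value {K L : Type*} [Field K] [Field L] [Algebra K L] {m n : ℕ}
    (A : Finset (Fin n → ℕ)) (B : Finset (Fin m → Fin n → ℕ))
    (F : (Fin n → ℕ) → (Fin m → Fin n → ℕ) → K) (x0 : Fin n → L)
    (S Z : Fin m × Fin n → PowerSeries L) :
    aeval (Sum.elim (fun t => PowerSeries.C (x0 t)) (Sum.elim S Z) : VL m n → PowerSeries L)
      (NF A B F) = ∑ ν ∈ B, algebraMap L (PowerSeries L)
        (∑ a ∈ A, (∏ t, x0 t ^ a t) * algebraMap K L (F a ν)) * ∏ i, ∏ t, Z (i, t) ^ ν i t := by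
  classical
  unfold NF
  rw [map_sum, show (∑ ν ∈ B, algebraMap L (PowerSeries L)
        (∑ a ∈ A, (∏ t, x0 t ^ a t) * algebraMap K L (F a ν)) * ∏ i, ∏ t, Z (i, t) ^ ν i t) =
      ∑ ν ∈ B, ∑ a ∈ A, algebraMap L (PowerSeries L) ((∏ t, x0 t ^ a t) *
        algebraMap K L (F a ν)) * ∏ i, ∏ t, Z (i, t) ^ ν i t from
    Finset.sum_congr rfl fun ν _ => by rw [map_sum, Finset.sum_mul], Finset.sum_comm]
  refine Finset.sum_congr rfl fun a _ => ?_
  rw [map_sum]
  refine Finset.sum_congr rfl fun ν _ => ?_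
  rw [aeval_monomial, Finsupp.prod_fintype _ _ (fun i => pow_zero _), Fintype.prod_sum_type,
    Fintype.prod_sum_type]
  have h1 : ∏ t : Fin n, (Sum.elim (fun t => PowerSeries.C (x0 t)) (Sum.elim S Z) :
      VL m n → PowerSeries L) (Sum.inl t) ^ (nx a ν (Sum.inl t)) =
      PowerSeries.C (∏ t, x0 t ^ a t) := by
    rw [map_prod]
    refine Finset.prod_congr rfl fun t _ => ?_
    rw [map_pow]
    rfl
  have h2 : ∏ p : Fin m × Fin n, (Sum.elim (fun t => PowerSeries.C (x0 t)) (Sum.elim S Z) :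
      VL m n → PowerSeries L) (Sum.inr (Sum.inl p)) ^ (nx a ν (Sum.inr (Sum.inl p))) = 1 :=
    Finset.prod_eq_one fun p _ => pow_zero _
  have h3 : ∏ p : Fin m × Fin n, (Sum.elim (fun t => PowerSeries.C (x0 t)) (Sum.elim S Z) :
      VL m n → PowerSeries L) (Sum.inr (Sum.inr p)) ^ (nx a ν (Sum.inr (Sum.inr p))) =
      ∏ i, ∏ t, Z (i, t) ^ ν i t := by
    rw [Fintype.prod_prod_type]
    rfl
  rw [h1, h2, h3, one_mul, ← mul_assoc]
  congr 1
  rw [PowerSeries.algebraMap_apply, map_mul, mul_comm]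
  rfl

/-- The relations at the joint point. -/
theorem joint_al {K L : Type*} [Field K] [Field L] [Algebra K L] {m n : ℕ}
    (W : Fin n → WeierstrassCurve K) (χ : Fin n → Bool) (j : Fin m → ℕ) (x0 : Fin n → L)
    (S Z : Fin m × Fin n → PowerSeries L)
    (hrel : ∀ p : Fin m × Fin n, S3 (W p.2) (mu (W p.2) (j p.1) ![PowerSeries.C (x0 p.2), 1])
      (vc (χ p.2) (S p)) ![Z p, 1] = 0) (p : Fin m × Fin n) :
    aeval (Sum.elim (fun t => PowerSeries.C (x0 t)) (Sum.elim S Z) : VL m n → PowerSeries L)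
      (al W χ j p) = 0 := by
  rw [aeval_al]
  exact hrel p

/-- The chain of divisibilities at the joint point. -/
theorem joint_dvd {K : Type u} [Field K] {m n : ℕ} (W : Fin n → WeierstrassCurve K)
    (χ : Fin n → Bool) (j : Fin m → ℕ) (NN : Fin (m + 1) → MvPolynomial (VL m n) K)
    (hlast : ∀ p, (NN (Fin.last m)).degreeOf (vZ p) = 0)
    (hN : ∀ (i : Fin m) (A : Type u) [CommRing A] [Algebra K A] (x : VL m n → A),
      (∀ t, aeval x (al W χ j (i, t)) = 0) →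
        aeval x (NN i.castSucc) ∣ aeval x (NN i.succ))
    {A : Type u} [CommRing A] [Algebra K A] (x : Fin n → A) (S Z Z' : Fin m × Fin n → A)
    (hal : ∀ p, aeval (Sum.elim x (Sum.elim S Z) : VL m n → A) (al W χ j p) = 0) :
    aeval (Sum.elim x (Sum.elim S Z) : VL m n → A) (NN 0) ∣
      aeval (Sum.elim x (Sum.elim S Z') : VL m n → A) (NN (Fin.last m)) := by
  have h1 : ∀ i : Fin (m + 1), aeval (Sum.elim x (Sum.elim S Z) : VL m n → A) (NN 0) ∣
      aeval (Sum.elim x (Sum.elim S Z) : VL m n → A) (NN i) := by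
    intro i
    induction i using Fin.induction with
    | zero => exact dvd_rfl
    | succ i ih => exact ih.trans (hN i A _ fun t => hal (i, t))
  refine (h1 (Fin.last m)).trans (dvd_of_eq ?_)
  refine aeval_congr_of_degreeOf _ _ _ fun v hv => ?_
  rcases v with t | p | p
  · rfl
  · rfl
  · exact absurd (hlast p) hv

/-- The radius of one block. -/
theorem rr_joint {K : Type u} [Field K] [NumberField K] {m n : ℕ}
    (W : Fin n → WeierstrassCurve K) {L : Type u} [Field L] [NumberField L] [Algebra K L]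
    (j : Fin m → ℕ) (σ : Fin m → Fin n → L) (q : Fin n → L) (b : Fin m → L) (hb : ∀ i, b i ≠ 0)
    (i : Fin m) (A : AbsoluteValue L ℝ → ℝ)
    (hA : ∀ v, 0 < A v ∧ A v ≤ 1) (hAF : FS fun v => Real.log (A v)) :
    (∀ v : AbsoluteValue L ℝ, 0 < dj j σ b v ^ (4 ^ j i) * A v /
        ((∏ t, kc (W t) v) ^ 200 * ∏ t, max 1 (v (q t))) ∧
      dj j σ b v ^ (4 ^ j i) * A v / ((∏ t, kc (W t) v) ^ 200 * ∏ t, max 1 (v (q t))) ≤ A v ∧
      dj j σ b v ^ (4 ^ j i) * A v / ((∏ t, kc (W t) v) ^ 200 * ∏ t, max 1 (v (q t))) *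
        ((∏ t, kc (W t) v) ^ 200 * ∏ t, max 1 (v (q t))) = dj j σ b v ^ (4 ^ j i) * A v) ∧
    (FS fun v : AbsoluteValue L ℝ => Real.log (dj j σ b v ^ (4 ^ j i) * A v /
        ((∏ t, kc (W t) v) ^ 200 * ∏ t, max 1 (v (q t))))) ∧
    - gs (fun v : AbsoluteValue L ℝ => Real.log (dj j σ b v ^ (4 ^ j i) * A v /
        ((∏ t, kc (W t) v) ^ 200 * ∏ t, max 1 (v (q t))))) =
      4 ^ j i * gj j σ b + - gs (fun v => Real.log (A v)) +
        200 * ∑ t, gs (fun v : AbsoluteValue L ℝ => Real.log (kc (W t) v)) +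
        ∑ t, logHeight₁ (q t) := by
  have hkc : ∀ v : AbsoluteValue L ℝ, 1 ≤ ∏ t, kc (W t) v := fun v =>
    E1_one_le_prod _ _ fun t => one_le_kc (W t) v
  have hq : ∀ v : AbsoluteValue L ℝ, 1 ≤ ∏ t, max 1 (v (q t)) := fun v =>
    E1_one_le_prod _ _ fun t => le_max_left _ _
  have hD : ∀ v : AbsoluteValue L ℝ,
      1 ≤ (∏ t, kc (W t) v) ^ 200 * ∏ t, max 1 (v (q t)) := fun v =>
    one_le_mul_of_one_le_of_one_le (one_le_pow₀ (hkc v)) (hq v)
  have hd0 : ∀ v : AbsoluteValue L ℝ, 0 < dj j σ b v ^ (4 ^ j i) := fun v =>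
    pow_pos (dj_pos j σ b v).1 _
  have hd1 : ∀ v : AbsoluteValue L ℝ, dj j σ b v ^ (4 ^ j i) ≤ 1 := fun v =>
    pow_le_one₀ (dj_pos j σ b v).1.le (dj_pos j σ b v).2
  have hlog : (fun v : AbsoluteValue L ℝ => Real.log (dj j σ b v ^ (4 ^ j i) * A v /
        ((∏ t, kc (W t) v) ^ 200 * ∏ t, max 1 (v (q t))))) =
      fun v : AbsoluteValue L ℝ => ((4 : ℝ) ^ j i * Real.log (dj j σ b v) + Real.log (A v)) -
        (200 * ∑ t, Real.log (kc (W t) v) + ∑ t, Real.log (max 1 (v (q t)))) := by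
    funext v
    have h1 := hd0 v
    have h2 := (hA v).1
    have h3 : 0 < ∏ t, kc (W t) v := lt_of_lt_of_le one_pos (hkc v)
    have h4 : 0 < ∏ t, max 1 (v (q t)) := lt_of_lt_of_le one_pos (hq v)
    rw [Real.log_div (mul_pos h1 h2).ne' (mul_pos (pow_pos h3 200) h4).ne',
      Real.log_mul h1.ne' h2.ne', Real.log_mul (pow_pos h3 200).ne' h4.ne', Real.log_pow,
      Real.log_pow,
      Real.log_prod (fun t _ => (lt_of_lt_of_le one_pos (one_le_kc (W t) v)).ne'),
      Real.log_prod (fun t _ => (lt_of_lt_of_le one_pos (le_max_left 1 (v (q t)))).ne')]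
    push_cast
    rfl
  have F1 : FS fun v : AbsoluteValue L ℝ => ∑ t, Real.log (kc (W t) v) :=
    FS_sum _ fun t _ => FS_log_kc (W t)
  have F2 : FS fun v : AbsoluteValue L ℝ => ∑ t, Real.log (max 1 (v (q t))) :=
    FS_sum _ fun t _ => FS_log_max (q t)
  have F3 := FS_const_mul ((4 : ℝ) ^ j i) (gs_log_dj j σ b hb).1
  refine ⟨fun v => ⟨?_, ?_, ?_⟩, ?_, ?_⟩
  · exact div_pos (mul_pos (hd0 v) (hA v).1) (lt_of_lt_of_le one_pos (hD v))
  · refine (div_le_self (mul_pos (hd0 v) (hA v).1).le (hD v)).trans ?_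
    exact mul_le_of_le_one_left (hA v).1.le (hd1 v)
  · exact div_mul_cancel₀ _ (lt_of_lt_of_le one_pos (hD v)).ne'
  · rw [hlog]
    exact FS_sub (FS_add F3 hAF) (FS_add (FS_const_mul 200 F1) F2)
  · rw [hlog, gs_sub (FS_add F3 hAF) (FS_add (FS_const_mul 200 F1) F2), gs_add F3 hAF,
      gs_add (FS_const_mul 200 F1) F2, gs_const_mul, gs_const_mul, (gs_log_dj j σ b hb).2,
      gs_sum _ (fun t _ => FS_log_kc (W t)), gs_sum _ (fun t _ => FS_log_max (q t))]
    simp only [gs_log_max]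
    ring

/-- The height of the value of one of the polynomials of the datum. -/
theorem ht_val {K : Type*} [Field K] [NumberField K] {n e : ℕ} (ρ : REP K n e) {D : ℕ}
    (hD : ρ.Deg D) (s : Fin n → K) (i : Fin n) :
    logHeight₁ (eval s (ρ.z i)) ≤ ρ.ht + D * ∑ t, logHeight₁ (s t) := by
  have hFS : FS (fun v : AbsoluteValue K ℝ => ∑ t, Real.log (max 1 (v (s t)))) :=
    FS_sum _ fun t _ => FS_log_max (s t)
  have h1 : ρ.ht + D * ∑ t, logHeight₁ (s t) =
      gs (fun v : AbsoluteValue K ℝ => Real.log (ρ.RB v) +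
        D * ∑ t, Real.log (max 1 (v (s t)))) := by
    rw [gs_add (FS_log_RB ρ) (FS_const_mul _ hFS), gs_const_mul,
      gs_sum _ fun t _ => FS_log_max (s t)]
    simp only [gs_log_max]
    rfl
  rw [h1, ← gs_log_max]
  refine gs_le (FS_log_max _) (FS_add (FS_log_RB ρ) (FS_const_mul _ hFS)) fun v _ => ?_
  have hd : ∀ t, (ρ.z i).degreeOf t ≤ D := fun t =>
    (degreeOf_le_totalDegree _ _).trans (hD.1 i)
  have h2 : v (eval s (ρ.z i)) ≤ NV v (ρ.z i) * ∏ t, max 1 (v (s t)) ^ D :=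
    (SN_self v).aeval_le (ρ.z i) (fun _ => D) hd s
  have hP : 1 ≤ ∏ t, max 1 (v (s t)) ^ D := E1_one_le_prod _ _ fun _ =>
    one_le_pow₀ (le_max_left _ _)
  have hR := one_le_RB ρ v
  have h3 : max 1 (v (eval s (ρ.z i))) ≤ ρ.RB v * ∏ t, max 1 (v (s t)) ^ D := by
    refine max_le (one_le_mul_of_one_le_of_one_le hR hP) (h2.trans ?_)
    exact mul_le_mul_of_nonneg_right (z_le_RB ρ v i) (zero_le_one.trans hP)
  have h4 := Real.log_le_log (lt_max_of_lt_left one_pos) h3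
  refine h4.trans (le_of_eq ?_)
  rw [Real.log_mul (zero_lt_one.trans_le hR).ne' (zero_lt_one.trans_le hP).ne',
    Real.log_prod fun t _ => (pow_pos (lt_max_of_lt_left one_pos) _).ne', Finset.mul_sum]
  congr 1
  refine Finset.sum_congr rfl fun t _ => ?_
  rw [Real.log_pow]

end Pool.Agent.Lib.MP_17a322_nt.VDL
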