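import Pool.Agent.Lib.MP_17a322_nt.VDL.CJ1

/-!
Definitions for the joint gain.
-/

universe u

namespace Pool.Agent.Lib.MP_17a322_nt.VDL

open MvPolynomial Height
open Pool.Agent.Lib.MP_17a322_nt.RO
open Pool.Agent.Lib.MP_17a322_nt.VJ
open Pool.Agent.Lib.MP_17a322_nt.VN

/-- The joint gain at one place. -/
noncomputable def gjv {L : Type*} [Field L] {m n : ℕ} (j : Fin m → ℕ) (s : Fin m → Fin n → L)
    (a : Fin m → L) (v : AbsoluteValue L ℝ) : ℝ :=
  open Classical in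
  if ∀ i t, v (s i t) ≤ 1 then ⨅ i, (- Real.log (min 1 (v (a i)))) / 4 ^ j i else 0

/-- The joint gain. -/
noncomputable def gj {L : Type*} [Field L] [AdmissibleAbsValues L] {m n : ℕ} (j : Fin m → ℕ)
    (s : Fin m → Fin n → L) (a : Fin m → L) : ℝ :=
  gs (gjv j s a)

end Pool.Agent.Lib.MP_17a322_nt.VDL
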